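import Pool.Agent.Helper4.FS.Coinc

/-! Project FS (MP_75608d_al), closing lemma: the deterministic cut lemma. -/

namespace Pool.Agent.Helper4.FS

open Equiv

variable {q n : ℕ}

section Words

variable {E : Type} [DecidableEq E]

/-- a signed generator -/
def sg (s : E × Bool) : FreeGroup E := FreeGroup.mk [s]

omit [DecidableEq E] in
lemma sg_inv (s : E × Bool) : (sg s)⁻¹ = sg (s.1, !s.2) := by
  simp [sg, FreeGroup.inv_mk, FreeGroup.invRev]

lemma toWord_sg (s : E × Bool) : (sg s).toWord = [s] := by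
  simp [sg]

/-- the last letter of the reduced word -/
def lst (w : FreeGroup E) : Option (E × Bool) := w.toWord.getLast?

lemma lst_sg (s : E × Bool) : lst (sg s) = some s := by
  simp [lst, toWord_sg]

lemma lst_mul {s : E × Bool} {R : FreeGroup E} (h1 : R ≠ 1) (h2 : sg s * R ≠ 1) :
    lst (sg s * R) = lst R := by
  unfold lst
  have hw : (sg s * R).toWord = FreeGroup.reduce (s :: R.toWord) := by
    rw [FreeGroup.toWord_mul, toWord_sg]; rfl
  have hne : (sg s * R).toWord ≠ [] := by
    rw [Ne, FreeGroup.toWord_eq_nil_iff]; exact h2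
  have hRne : R.toWord ≠ [] := by
    rw [Ne, FreeGroup.toWord_eq_nil_iff]; exact h1
  rw [hw] at hne ⊢
  rw [FreeGroup.reduce.cons, FreeGroup.reduce_toWord] at hne ⊢
  cases hR : R.toWord with
  | nil => exact absurd hR hRne
  | cons hd tl =>
    rw [hR] at hne
    simp only at hne ⊢
    split_ifs at hne ⊢ with hc
    · cases tl with
      | nil => exact absurd rfl hne
      | cons a l => simp
    · simp

/-- along a path which avoids the identity the last letter is constant -/
lemma lst_const {R : ℕ → FreeGroup E} {a b : ℕ} (hab : a ≤ b)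
    (hstep : ∀ t, a ≤ t → t < b → R (t + 1) = R t ∨ ∃ s, R (t + 1) = sg s * R t)
    (hne : ∀ t, a ≤ t → t ≤ b → R t ≠ 1) : lst (R a) = lst (R b) := by
  induction b, hab using Nat.le_induction with
  | base => rfl
  | succ b hb ih =>
    rw [ih (fun t h1 h2 => hstep t h1 (by omega)) (fun t h1 h2 => hne t h1 (by omega))]
    rcases hstep b hb (by omega) with h | ⟨s, h⟩
    · rw [h]
    · rw [h, lst_mul (hne b hb (by omega)) (h ▸ hne (b + 1) (by omega) le_rfl)]

end Words

lemma eg_inr_sg (y : World q n) (m : Lt q) (p : Fin n) :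
    eg y (Sum.inr m) p = sg (ed y m p, m.2) := by
  rw [eg_inr]
  obtain ⟨j, σ⟩ := m
  cases σ
  · simp only [Bool.false_eq_true, if_false]
    rfl
  · simp only [if_true]
    rfl

/-- the program with the constants `a 0, a 1, …` and the slots `g 0, g 1, …` (`none` is lazy):
step `2i` is the constant `a i`, step `2i+1` is the slot `g i` -/
def prog (a : ℕ → Perm (Fin n)) (g : ℕ → Option (Lt q)) (k : ℕ) : Stp q n :=
  if k % 2 = 0 then Sum.inl (a (k / 2)) else
    match g (k / 2) with
    | none => Sum.inl 1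
    | some m => Sum.inr m

lemma prog_even (a : ℕ → Perm (Fin n)) (g : ℕ → Option (Lt q)) (i : ℕ) :
    prog a g (2 * i) = Sum.inl (a i) := by
  simp [prog]

lemma prog_odd_none {a : ℕ → Perm (Fin n)} {g : ℕ → Option (Lt q)} {i : ℕ} (h : g i = none) :
    prog a g (2 * i + 1) = Sum.inl 1 := by
  have h1 : (2 * i + 1) % 2 = 1 := by omega
  have h2 : (2 * i + 1) / 2 = i := by omega
  simp [prog, h1, h2, h]

lemma prog_odd_some {a : ℕ → Perm (Fin n)} {g : ℕ → Option (Lt q)} {i : ℕ} {m : Lt q}
    (h : g i = some m) : prog a g (2 * i + 1) = Sum.inr m := by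
  have h1 : (2 * i + 1) % 2 = 1 := by omega
  have h2 : (2 * i + 1) / 2 = i := by omega
  simp [prog, h1, h2, h]

lemma pos_odd_some {a : ℕ → Perm (Fin n)} {g : ℕ → Option (Lt q)} {i : ℕ} {m : Lt q}
    (h : g i = some m) (y : World q n) (x : Fin n) :
    pos (prog a g) y 0 x (2 * i + 2) = lp y m (pos (prog a g) y 0 x (2 * i + 1)) := by
  rw [show 2 * i + 2 = (2 * i + 1) + 1 by ring, pos_succ, zero_add, prog_odd_some h]
  rfl

lemma pos_even_step (a : ℕ → Perm (Fin n)) (g : ℕ → Option (Lt q)) (y : World q n) (x : Fin n)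
    (i : ℕ) : pos (prog a g) y 0 x (2 * i + 1) = a i (pos (prog a g) y 0 x (2 * i)) := by
  rw [pos_succ, zero_add, prog_even]
  rfl

lemma pos_odd_none {a : ℕ → Perm (Fin n)} {g : ℕ → Option (Lt q)} {i : ℕ} (h : g i = none)
    (y : World q n) (x : Fin n) :
    pos (prog a g) y 0 x (2 * i + 2) = pos (prog a g) y 0 x (2 * i + 1) := by
  rw [show 2 * i + 2 = (2 * i + 1) + 1 by ring, pos_succ, zero_add, prog_odd_none h]
  rfl

/-- product of the letters of the first `t` slots, newest on the left -/
def HL (g : ℕ → Option (Lt q)) : ℕ → FreeGroup (Fin q)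
  | 0 => 1
  | t + 1 => (match g t with | none => 1 | some m => sg m) * HL g t

/-- projection of the edge group -/
noncomputable def proj : FreeGroup (Fin q × Fin n) →* FreeGroup (Fin q) := FreeGroup.map Prod.fst

lemma proj_sg (e : Fin q × Fin n) (b : Bool) : proj (sg (e, b)) = sg (e.1, b) := by
  simp [proj, sg, FreeGroup.map.mk]

lemma prd_even_step (a : ℕ → Perm (Fin n)) (g : ℕ → Option (Lt q)) (y : World q n) (x : Fin n)
    (i : ℕ) : prd (prog a g) y 0 x (2 * i + 1) = prd (prog a g) y 0 x (2 * i) := by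
  rw [prd_succ, zero_add, prog_even]
  simp [eg]

lemma prd_odd_none {a : ℕ → Perm (Fin n)} {g : ℕ → Option (Lt q)} {i : ℕ} (h : g i = none)
    (y : World q n) (x : Fin n) :
    prd (prog a g) y 0 x (2 * i + 2) = prd (prog a g) y 0 x (2 * i) := by
  rw [show 2 * i + 2 = (2 * i + 1) + 1 by ring, prd_succ, zero_add, prog_odd_none h, prd_even_step]
  simp [eg]

lemma prd_odd_some {a : ℕ → Perm (Fin n)} {g : ℕ → Option (Lt q)} {i : ℕ} {m : Lt q}
    (h : g i = some m) (y : World q n) (x : Fin n) :
    prd (prog a g) y 0 x (2 * i + 2) =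
      sg (ed y m (pos (prog a g) y 0 x (2 * i + 1)), m.2) * prd (prog a g) y 0 x (2 * i) := by
  rw [show 2 * i + 2 = (2 * i + 1) + 1 by ring, prd_succ, zero_add, prog_odd_some h, prd_even_step,
    eg_inr_sg]

lemma proj_prd (a : ℕ → Perm (Fin n)) (g : ℕ → Option (Lt q)) (y : World q n) (x : Fin n) (t : ℕ) :
    proj (prd (prog a g) y 0 x (2 * t)) = HL g t := by
  induction t with
  | zero => simp [HL]
  | succ t ih =>
    rw [show 2 * (t + 1) = 2 * t + 2 by ring]
    rcases h : g t with _ | m
    · rw [prd_odd_none h, ih]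
      simp [HL, h]
    · rw [prd_odd_some h, map_mul, ih, proj_sg]
      simp [HL, h, ed]

/-- `Cut g N i j`: the vertex between the slots `i < j` is visited in exactly one time interval,
arrival by the slot `i`, departure by the slot `j` -/
structure CutL (g : ℕ → Option (Lt q)) (N i j : ℕ) : Prop where
  lt : i < j
  ltN : j < N
  lazy : ∀ t, i < t → t < j → g t = none
  ex : ∃ m m', g i = some m ∧ g j = some m' ∧ sg m' * sg m ≠ 1
  only : ∀ t ≤ N, HL g t = HL g (i + 1) → i + 1 ≤ t ∧ t ≤ j

/-- **deterministic cut lemma**: two paths from `x` with the same slots and the same edge product at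
the end pass a cut vertex through the same position, and leave it from the same position -/
theorem det_cut {a b : ℕ → Perm (Fin n)} {g : ℕ → Option (Lt q)} {y : World q n} {x : Fin n}
    {N i j : ℕ} (hend : prd (prog a g) y 0 x (2 * N) = prd (prog b g) y 0 x (2 * N))
    (hcut : CutL g N i j) :
    pos (prog a g) y 0 x (2 * i + 2) = pos (prog b g) y 0 x (2 * i + 2) ∧
      pos (prog a g) y 0 x (2 * j + 1) = pos (prog b g) y 0 x (2 * j + 1) := by
  classical
  obtain ⟨hij, hjN, hlazy, ⟨m, m', hm, hm', hmm⟩, honly⟩ := hcut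
  -- the sequences at even times
  set A : ℕ → FreeGroup (Fin q × Fin n) := fun t => prd (prog a g) y 0 x (2 * t) with hA
  set B : ℕ → FreeGroup (Fin q × Fin n) := fun t => prd (prog b g) y 0 x (2 * t) with hB
  have hstepA : ∀ t, A (t + 1) = A t ∨ ∃ s, A (t + 1) = sg s * A t := by
    intro t
    simp only [hA, show 2 * (t + 1) = 2 * t + 2 by ring]
    rcases h : g t with _ | m
    · exact Or.inl (prd_odd_none h y x)
    · exact Or.inr ⟨_, prd_odd_some h y x⟩
  have hstepB : ∀ t, B (t + 1) = B t ∨ ∃ s, B (t + 1) = sg s * B t := by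
    intro t
    simp only [hB, show 2 * (t + 1) = 2 * t + 2 by ring]
    rcases h : g t with _ | m
    · exact Or.inl (prd_odd_none h y x)
    · exact Or.inr ⟨_, prd_odd_some h y x⟩
  have hprA : ∀ t, proj (A t) = HL g t := fun t => proj_prd a g y x t
  have hprB : ∀ t, proj (B t) = HL g t := fun t => proj_prd b g y x t
  have hconst : ∀ t, i + 1 ≤ t → t ≤ j → A t = A (i + 1) ∧ B t = B (i + 1) := by
    intro t h1
    induction t, h1 using Nat.le_induction with
    | base => intro; exact ⟨rfl, rfl⟩
    | succ t ht ih =>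
      intro h2
      obtain ⟨e1, e2⟩ := ih (by omega)
      have hl := hlazy t (by omega) (by omega)
      refine ⟨?_, ?_⟩
      · rw [← e1]
        simp only [hA, show 2 * (t + 1) = 2 * t + 2 by ring]
        exact prd_odd_none hl y x
      · rw [← e2]
        simp only [hB, show 2 * (t + 1) = 2 * t + 2 by ring]
        exact prd_odd_none hl y x
  obtain ⟨hAj, hBj⟩ := hconst j (by omega) le_rfl
  -- arrival and departure
  set sA : (Fin q × Fin n) × Bool := (ed y m (pos (prog a g) y 0 x (2 * i + 1)), m.2) with hsA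
  set sB : (Fin q × Fin n) × Bool := (ed y m (pos (prog b g) y 0 x (2 * i + 1)), m.2) with hsB
  set dA : (Fin q × Fin n) × Bool := (ed y m' (pos (prog a g) y 0 x (2 * j + 1)), m'.2) with hdA
  set dB : (Fin q × Fin n) × Bool := (ed y m' (pos (prog b g) y 0 x (2 * j + 1)), m'.2) with hdB
  have arrA : A (i + 1) = sg sA * A i := by
    simp only [hA, show 2 * (i + 1) = 2 * i + 2 by ring]
    exact prd_odd_some hm y x
  have arrB : B (i + 1) = sg sB * B i := by
    simp only [hB, show 2 * (i + 1) = 2 * i + 2 by ring]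
    exact prd_odd_some hm y x
  have depA : A (j + 1) = sg dA * A (i + 1) := by
    rw [← hAj]
    simp only [hA, show 2 * (j + 1) = 2 * j + 2 by ring]
    exact prd_odd_some hm' y x
  have depB : B (j + 1) = sg dB * B (i + 1) := by
    rw [← hBj]
    simp only [hB, show 2 * (j + 1) = 2 * j + 2 by ring]
    exact prd_odd_some hm' y x
  -- general principle
  have stepR : ∀ (S : ℕ → FreeGroup (Fin q × Fin n)) (V : FreeGroup (Fin q × Fin n)),
      (∀ t, S (t + 1) = S t ∨ ∃ s, S (t + 1) = sg s * S t) →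
      ∀ t, S (t + 1) * V⁻¹ = S t * V⁻¹ ∨ ∃ s, S (t + 1) * V⁻¹ = sg s * (S t * V⁻¹) := by
    intro S V hS t
    rcases hS t with h | ⟨s, h⟩
    · left; rw [h]
    · right; exact ⟨s, by rw [h, mul_assoc]⟩
  have neR : ∀ (S : ℕ → FreeGroup (Fin q × Fin n)) (V : FreeGroup (Fin q × Fin n)),
      (∀ t, proj (S t) = HL g t) → proj V = HL g (i + 1) →
      ∀ t ≤ N, ¬ (i + 1 ≤ t ∧ t ≤ j) → S t * V⁻¹ ≠ 1 := by
    intro S V hS hV t ht hn h1
    have : S t = V := mul_inv_eq_one.1 h1
    apply hn
    apply honly t ht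
    rw [← hS t, this, hV]
  have hVA : proj (A (i + 1)) = HL g (i + 1) := hprA _
  have hVB : proj (B (i + 1)) = HL g (i + 1) := hprB _
  have hA0 : A 0 = 1 := by simp [hA]
  have hB0 : B 0 = 1 := by simp [hB]
  have hABN : A N = B N := hend
  -- four last letter statements for a base point V
  have before : ∀ (S : ℕ → FreeGroup (Fin q × Fin n)) (V : FreeGroup (Fin q × Fin n)),
      (∀ t, S (t + 1) = S t ∨ ∃ s, S (t + 1) = sg s * S t) →
      (∀ t, proj (S t) = HL g t) → proj V = HL g (i + 1) →
      lst (S 0 * V⁻¹) = lst (S i * V⁻¹) := by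
    intro S V h1 h2 h3
    refine lst_const (R := fun t => S t * V⁻¹) (Nat.zero_le _) (fun t _ _ => stepR S V h1 t) ?_
    intro t _ ht
    exact neR S V h2 h3 t (by omega) (by omega)
  have after : ∀ (S : ℕ → FreeGroup (Fin q × Fin n)) (V : FreeGroup (Fin q × Fin n)),
      (∀ t, S (t + 1) = S t ∨ ∃ s, S (t + 1) = sg s * S t) →
      (∀ t, proj (S t) = HL g t) → proj V = HL g (i + 1) →
      lst (S (j + 1) * V⁻¹) = lst (S N * V⁻¹) := by
    intro S V h1 h2 h3
    refine lst_const (R := fun t => S t * V⁻¹) (by omega) (fun t _ _ => stepR S V h1 t) ?_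
    intro t ht1 ht2
    exact neR S V h2 h3 t ht2 (by omega)
  -- the vertices agree
  have hVV : A (i + 1) = B (i + 1) := by
    by_contra hne
    set V := A (i + 1) with hV
    have hBV : B (i + 1) * V⁻¹ ≠ 1 := fun h => hne (mul_inv_eq_one.1 h).symm
    -- before
    have e1 : lst (A i * V⁻¹) = some (sA.1, !sA.2) := by
      have : A i * V⁻¹ = sg (sA.1, !sA.2) := by
        rw [arrA, mul_inv_rev, ← mul_assoc, mul_inv_cancel, one_mul, sg_inv]
      rw [this, lst_sg]
    have e2 : lst (B i * V⁻¹) = lst (B (i + 1) * V⁻¹) := by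
      refine lst_const (R := fun t => B t * V⁻¹) (by omega) (fun t _ _ => stepR B V hstepB t) ?_
      intro t h1 h2
      rcases Nat.eq_or_lt_of_le h2 with h | h
      · rw [h]; exact hBV
      · exact neR B V hprB hVA t (by omega) (by omega)
    have e3 : lst (B (i + 1) * V⁻¹) = some (sA.1, !sA.2) := by
      rw [← e2, ← before B V hstepB hprB hVA, hB0, ← hA0, before A V hstepA hprA hVA, e1]
    -- after
    have f1 : lst (A (j + 1) * V⁻¹) = some dA := by
      have : A (j + 1) * V⁻¹ = sg dA := by
        rw [depA, mul_assoc, mul_inv_cancel, mul_one]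
      rw [this, lst_sg]
    have f2 : lst (B (i + 1) * V⁻¹) = lst (B (j + 1) * V⁻¹) := by
      refine lst_const (R := fun t => B t * V⁻¹) (by omega) (fun t _ _ => stepR B V hstepB t) ?_
      intro t h1 h2
      rcases Nat.eq_or_lt_of_le h2 with h | h
      · rw [h]; exact neR B V hprB hVA (j + 1) (by omega) (by omega)
      · show B t * V⁻¹ ≠ 1
        rw [(hconst t h1 (by omega)).2]; exact hBV
    have f3 : lst (B (i + 1) * V⁻¹) = some dA := by
      rw [f2, after B V hstepB hprB hVA, ← hABN, ← after A V hstepA hprA hVA, f1]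
    rw [e3] at f3
    have hs : (sA.1, !sA.2) = dA := Option.some.inj f3
    apply hmm
    have h1 : sg m' = sg (m.1, !m.2) := by
      have h1 := congrArg (fun s : (Fin q × Fin n) × Bool => ((s.1.1, s.2) : Lt q)) hs
      simp only [hsA, hdA, ed] at h1
      rw [h1]
    rw [h1, ← sg_inv]
    simp
  constructor
  · -- arrival
    set V := A (i + 1) with hV
    have e1 : lst (A i * V⁻¹) = some (sA.1, !sA.2) := by
      have : A i * V⁻¹ = sg (sA.1, !sA.2) := by
        rw [arrA, mul_inv_rev, ← mul_assoc, mul_inv_cancel, one_mul, sg_inv]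
      rw [this, lst_sg]
    have e2 : lst (B i * V⁻¹) = some (sB.1, !sB.2) := by
      have : B i * V⁻¹ = sg (sB.1, !sB.2) := by
        rw [hVV, arrB, mul_inv_rev, ← mul_assoc, mul_inv_cancel, one_mul, sg_inv]
      rw [this, lst_sg]
    have e3 : (sA.1, !sA.2) = (sB.1, !sB.2) := by
      apply Option.some.inj
      rw [← e1, ← e2, ← before A V hstepA hprA hVA, ← before B V hstepB hprB hVA, hA0, hB0]
    have e4 : ed y m (pos (prog a g) y 0 x (2 * i + 1)) =
        ed y m (pos (prog b g) y 0 x (2 * i + 1)) := congrArg Prod.fst e3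
    have e5 := same_dir (j := m.1) (σ := m.2) e4
    rw [pos_odd_some hm, pos_odd_some hm, e5]
  · -- departure
    set V := A (i + 1) with hV
    have f1 : lst (A (j + 1) * V⁻¹) = some dA := by
      have : A (j + 1) * V⁻¹ = sg dA := by
        rw [depA, mul_assoc, mul_inv_cancel, mul_one]
      rw [this, lst_sg]
    have f2 : lst (B (j + 1) * V⁻¹) = some dB := by
      have : B (j + 1) * V⁻¹ = sg dB := by
        rw [depB, hVV, mul_assoc, mul_inv_cancel, mul_one]
      rw [this, lst_sg]
    have f3 : dA = dB := by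
      apply Option.some.inj
      rw [← f1, ← f2, after A V hstepA hprA hVA, after B V hstepB hprB hVA, hABN]
    have e4 : ed y m' (pos (prog a g) y 0 x (2 * j + 1)) =
        ed y m' (pos (prog b g) y 0 x (2 * j + 1)) := congrArg Prod.fst f3
    exact same_dir (j := m'.1) (σ := m'.2) e4

end Pool.Agent.Helper4.FS
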