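import Pool.Agent.Helper35.FS.CutW

/-! Project FS (MP_75608d_al), closing lemma for many tokens: patterns with a large increasing
self-matching without fixed points have small weight. -/

set_option autoImplicit false

namespace Pool.Agent.Helper4.FS

open Finset Pool.Agent.Helper35.FS

variable {Q : Type*} [DecidableEq Q] [Fintype Q]

/-- an increasing self-matching of a pattern without fixed points -/
structure Mat (g : ℕ → Option (Q × Bool)) (N : ℕ) (D : Finset ℕ) (σ : ℕ → ℕ) : Prop where
  dom : ∀ i ∈ D, i < N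
  cod : ∀ i ∈ D, σ i < N
  ne : ∀ i ∈ D, σ i ≠ i
  mono : ∀ i ∈ D, ∀ j ∈ D, i < j → σ i < σ j
  act : ∀ i ∈ D, g i ≠ none
  eq : ∀ i ∈ D, g (σ i) = g i

open Classical in
/-- constraints with different maximal indices are independent -/
theorem seq_le (ε : ℝ) (hε : 0 ≤ ε) : ∀ (N : ℕ) (p : Fin N → Option (Q × Bool) → ℝ),
    (∀ k o, 0 ≤ p k o) → (∀ k, ∑ o, p k o = 1) → (∀ k l, p k (some l) ≤ ε) →
    ∀ (M : Finset ℕ) (π : ℕ → ℕ), (∀ k ∈ M, k < N) → (∀ k ∈ M, π k < k) →
    ∑ g : Fin N → Option (Q × Bool), (∏ k, p k (g k)) *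
      (if ∀ k ∈ M, ext g k = ext g (π k) ∧ ext g k ≠ none then 1 else 0) ≤ ε ^ #M
  | 0, p, _, _, _, M, π, hM, _ => by
    have : M = ∅ := by
      rw [eq_empty_iff_forall_notMem]
      intro k hk
      exact absurd (hM k hk) (by omega)
    subst this
    rw [Fintype.sum_eq_single (fun k => k.elim0)]
    · simp
    · intro ls hls
      exact absurd (Subsingleton.elim _ _) hls
  | N + 1, p, hnn, h1, hl, M, π, hM, hπ => by
    rw [sum_snoc]
    by_cases hN : N ∈ M
    · -- the last slot is constrained
      have key : ∀ (g : Fin N → Option (Q × Bool)),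
          ∑ o, (∏ k, p k ((Fin.snoc g o : Fin (N + 1) → Option (Q × Bool)) k)) *
            (if ∀ k ∈ M, ext (Fin.snoc g o : Fin (N + 1) → Option (Q × Bool)) k =
              ext (Fin.snoc g o : Fin (N + 1) → Option (Q × Bool)) (π k) ∧
              ext (Fin.snoc g o : Fin (N + 1) → Option (Q × Bool)) k ≠ none then 1 else 0) ≤
          ε * ((∏ k : Fin N, p k.castSucc (g k)) *
            (if ∀ k ∈ M.erase N, ext g k = ext g (π k) ∧ ext g k ≠ none then 1 else 0)) := by
        intro g
        have hW : 0 ≤ ∏ k : Fin N, p k.castSucc (g k) := prod_nonneg fun k _ => hnn _ _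
        have hterm : ∀ o, (∏ k, p k ((Fin.snoc g o : Fin (N + 1) → Option (Q × Bool)) k)) *
            (if ∀ k ∈ M, ext (Fin.snoc g o : Fin (N + 1) → Option (Q × Bool)) k =
              ext (Fin.snoc g o : Fin (N + 1) → Option (Q × Bool)) (π k) ∧
              ext (Fin.snoc g o : Fin (N + 1) → Option (Q × Bool)) k ≠ none then 1 else 0) ≤
            (if o = ext g (π N) ∧ o ≠ none then p (Fin.last N) o else 0) *
            ((∏ k : Fin N, p k.castSucc (g k)) *
              (if ∀ k ∈ M.erase N, ext g k = ext g (π k) ∧ ext g k ≠ none then 1 else 0)) := by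
          intro o
          rw [Fin.prod_univ_castSucc, Fin.snoc_last,
            prod_congr rfl fun k _ => by rw [Fin.snoc_castSucc]]
          by_cases hall : ∀ k ∈ M, ext (Fin.snoc g o : Fin (N + 1) → Option (Q × Bool)) k =
              ext (Fin.snoc g o : Fin (N + 1) → Option (Q × Bool)) (π k) ∧
              ext (Fin.snoc g o : Fin (N + 1) → Option (Q × Bool)) k ≠ none
          · have hlast := hall N hN
            rw [ext_snoc_eq, ext_snoc_lt g o (π N) (hπ N hN)] at hlast
            have hrest : ∀ k ∈ M.erase N, ext g k = ext g (π k) ∧ ext g k ≠ none := by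
              intro k hk
              rw [mem_erase] at hk
              have hkN : k < N := by
                have := hM k hk.2
                omega
              have := hall k hk.2
              rw [ext_snoc_lt g o k hkN, ext_snoc_lt g o (π k) ((hπ k hk.2).trans hkN)] at this
              exact this
            rw [if_pos hall, if_pos hlast, if_pos hrest]
            linarith
          · rw [if_neg hall, mul_zero]
            apply mul_nonneg
            · split_ifs
              · exact hnn _ _
              · exact le_rfl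
            · apply mul_nonneg hW
              split_ifs <;> norm_num
        refine (sum_le_sum fun o _ => hterm o).trans ?_
        rw [← sum_mul]
        apply mul_le_mul_of_nonneg_right _ (mul_nonneg hW (by split_ifs <;> norm_num))
        rcases hx : ext g (π N) with _ | l
        · rw [sum_eq_zero]
          · exact hε
          · intro o _
            rw [if_neg]
            rintro ⟨h, h'⟩
            exact h' h
        · rw [sum_eq_single (some l)]
          · rw [if_pos ⟨rfl, by simp⟩]
            exact hl _ _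
          · intro o _ ho
            rw [if_neg]
            rintro ⟨h, -⟩
            exact ho h
          · intro h
            exact absurd (mem_univ _) h
      refine (sum_le_sum fun g _ => key g).trans ?_
      rw [← mul_sum]
      have ih := seq_le ε hε N (fun k => p k.castSucc) (fun k o => hnn _ _) (fun k => h1 _)
        (fun k l => hl _ _) (M.erase N) π
        (fun k hk => by
          rw [mem_erase] at hk
          have := hM k hk.2
          omega)
        (fun k hk => hπ k (mem_of_mem_erase hk))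
      have hc : #M = #(M.erase N) + 1 := by
        rw [card_erase_add_one hN]
      rw [hc, pow_succ, mul_comm]
      exact mul_le_mul_of_nonneg_right ih hε
    · have key : ∀ (g : Fin N → Option (Q × Bool)),
          ∑ o, (∏ k, p k ((Fin.snoc g o : Fin (N + 1) → Option (Q × Bool)) k)) *
            (if ∀ k ∈ M, ext (Fin.snoc g o : Fin (N + 1) → Option (Q × Bool)) k =
              ext (Fin.snoc g o : Fin (N + 1) → Option (Q × Bool)) (π k) ∧
              ext (Fin.snoc g o : Fin (N + 1) → Option (Q × Bool)) k ≠ none then 1 else 0) =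
          (∏ k : Fin N, p k.castSucc (g k)) *
            (if ∀ k ∈ M, ext g k = ext g (π k) ∧ ext g k ≠ none then 1 else 0) := by
        intro g
        have hMN : ∀ k ∈ M, k < N := by
          intro k hk
          have h2 := hM k hk
          rcases Nat.lt_or_ge k N with h | h
          · exact h
          · exact absurd (show k = N by omega) fun h' => hN (h' ▸ hk)
        have hterm : ∀ o, (∏ k, p k ((Fin.snoc g o : Fin (N + 1) → Option (Q × Bool)) k)) *
            (if ∀ k ∈ M, ext (Fin.snoc g o : Fin (N + 1) → Option (Q × Bool)) k =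
              ext (Fin.snoc g o : Fin (N + 1) → Option (Q × Bool)) (π k) ∧
              ext (Fin.snoc g o : Fin (N + 1) → Option (Q × Bool)) k ≠ none then 1 else 0) =
            p (Fin.last N) o * ((∏ k : Fin N, p k.castSucc (g k)) *
              (if ∀ k ∈ M, ext g k = ext g (π k) ∧ ext g k ≠ none then 1 else 0)) := by
          intro o
          have hiff : (∀ k ∈ M, ext (Fin.snoc g o : Fin (N + 1) → Option (Q × Bool)) k =
              ext (Fin.snoc g o : Fin (N + 1) → Option (Q × Bool)) (π k) ∧
              ext (Fin.snoc g o : Fin (N + 1) → Option (Q × Bool)) k ≠ none) ↔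
              (∀ k ∈ M, ext g k = ext g (π k) ∧ ext g k ≠ none) := by
            refine forall₂_congr fun k hk => ?_
            rw [ext_snoc_lt g o k (hMN k hk), ext_snoc_lt g o (π k) ((hπ k hk).trans (hMN k hk))]
          rw [Fin.prod_univ_castSucc, Fin.snoc_last,
            prod_congr rfl fun k _ => by rw [Fin.snoc_castSucc]]
          simp only [hiff]
          ring
        rw [sum_congr rfl fun o _ => hterm o, ← sum_mul, h1, one_mul]
      rw [sum_congr rfl fun g _ => key g]
      exact seq_le ε hε N (fun k => p k.castSucc) (fun k o => hnn _ _) (fun k => h1 _)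
        (fun k l => hl _ _) M π
        (fun k hk => by
          have h2 := hM k hk
          rcases Nat.lt_or_ge k N with h | h
          · exact h
          · exact absurd (show k = N by omega) fun h' => hN (h' ▸ hk))
        hπ

/-- a strictly increasing map on a finite set is determined by its image -/
theorem mono_unique {D : Finset ℕ} {σ τ : ℕ → ℕ} (hσ : ∀ i ∈ D, ∀ j ∈ D, i < j → σ i < σ j)
    (hτ : ∀ i ∈ D, ∀ j ∈ D, i < j → τ i < τ j) (h : D.image σ = D.image τ) :
    ∀ i ∈ D, σ i = τ i := by
  have hcard : #(D.image σ) = #D := by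
    apply card_image_of_injOn
    intro i hi j hj hij
    by_contra hne
    rcases Nat.lt_or_gt_of_ne hne with h' | h'
    · exact absurd hij (hσ i hi j hj h').ne
    · exact absurd hij (hσ j hj i hi h').ne'
  have e1 : (fun k : Fin #D => σ (D.orderEmbOfFin rfl k)) =
      ((D.image σ).orderEmbOfFin hcard : Fin #D → ℕ) := by
    apply orderEmbOfFin_unique
    · intro k
      exact mem_image_of_mem _ (orderEmbOfFin_mem _ _ _)
    · intro k l hkl
      exact hσ _ (orderEmbOfFin_mem _ _ _) _ (orderEmbOfFin_mem _ _ _)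
        ((D.orderEmbOfFin rfl).strictMono hkl)
  have e2 : (fun k : Fin #D => τ (D.orderEmbOfFin rfl k)) =
      ((D.image σ).orderEmbOfFin hcard : Fin #D → ℕ) := by
    apply orderEmbOfFin_unique
    · intro k
      rw [h]
      exact mem_image_of_mem _ (orderEmbOfFin_mem _ _ _)
    · intro k l hkl
      exact hτ _ (orderEmbOfFin_mem _ _ _) _ (orderEmbOfFin_mem _ _ _)
        ((D.orderEmbOfFin rfl).strictMono hkl)
  intro i hi
  have hr : i ∈ Set.range (D.orderEmbOfFin rfl) := by
    rw [range_orderEmbOfFin]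
    exact hi
  obtain ⟨k, hk⟩ := hr
  have := congrFun (e1.trans e2.symm) k
  simp only [hk] at this
  exact this

open Classical in
/-- one matching -/
theorem mat_le (ε : ℝ) (hε : 0 ≤ ε) {N : ℕ} (p : Fin N → Option (Q × Bool) → ℝ)
    (hnn : ∀ k o, 0 ≤ p k o) (h1 : ∀ k, ∑ o, p k o = 1) (hl : ∀ k l, p k (some l) ≤ ε)
    (D : Finset ℕ) (σ : ℕ → ℕ) :
    ∑ g : Fin N → Option (Q × Bool) with Mat (ext g) N D σ, ∏ k, p k (g k) ≤ ε ^ #D := by
  by_cases hex : ∃ g : Fin N → Option (Q × Bool), Mat (ext g) N D σ
  · obtain ⟨g0, h0⟩ := hex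
    -- the maximal index of a constraint determines the constraint
    have hinj : ∀ i ∈ D, ∀ j ∈ D, max i (σ i) = max j (σ j) → i = j := by
      have main : ∀ i ∈ D, ∀ j ∈ D, i < j → max i (σ i) = max j (σ j) → False := by
        intro i hi j hj hij hm
        have h2 := h0.mono i hi j hj hij
        rcases le_total i (σ i) with h3 | h3 <;> rcases le_total j (σ j) with h4 | h4
        · rw [max_eq_right h3, max_eq_right h4] at hm; omega
        · rw [max_eq_right h3, max_eq_left h4] at hm; omega
        · rw [max_eq_left h3, max_eq_right h4] at hm; omega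
        · rw [max_eq_left h3, max_eq_left h4] at hm; omega
      intro i hi j hj hm
      by_contra hne
      rcases Nat.lt_or_gt_of_ne hne with h' | h'
      · exact main i hi j hj h' hm
      · exact main j hj i hi h' hm.symm
    let M : Finset ℕ := D.image fun i => max i (σ i)
    have hMc : #M = #D := card_image_of_injOn fun i hi j hj h => hinj i hi j hj h
    let π : ℕ → ℕ := fun k => if h : ∃ i ∈ D, max i (σ i) = k then
      min h.choose (σ h.choose) else 0
    have hπ : ∀ i ∈ D, π (max i (σ i)) = min i (σ i) := by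
      intro i hi
      have hex : ∃ j ∈ D, max j (σ j) = max i (σ i) := ⟨i, hi, rfl⟩
      have hc := hex.choose_spec
      have : hex.choose = i := hinj _ hc.1 _ hi hc.2
      simp only [π]
      rw [dif_pos hex, this]
    have hlt : ∀ k ∈ M, π k < k := by
      intro k hk
      obtain ⟨i, hi, rfl⟩ := mem_image.1 hk
      rw [hπ i hi]
      have := h0.ne i hi
      rcases Nat.lt_or_gt_of_ne this with h | h
      · rw [min_eq_right h.le, max_eq_left h.le]; exact h
      · rw [min_eq_left h.le, max_eq_right h.le]; exact h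
    have hN : ∀ k ∈ M, k < N := by
      intro k hk
      obtain ⟨i, hi, rfl⟩ := mem_image.1 hk
      exact max_lt (h0.dom i hi) (h0.cod i hi)
    have hseq := seq_le ε hε N p hnn h1 hl M π hN hlt
    rw [hMc] at hseq
    refine le_trans ?_ hseq
    rw [sum_filter]
    apply sum_le_sum
    intro g _
    have hw : 0 ≤ ∏ k, p k (g k) := prod_nonneg fun k _ => hnn _ _
    split_ifs with hm hc hc
    · linarith
    · exfalso
      apply hc
      intro k hk
      obtain ⟨i, hi, rfl⟩ := mem_image.1 hk
      rw [hπ i hi]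
      have h5 := hm.eq i hi
      have h6 := hm.act i hi
      rcases le_total i (σ i) with h | h
      · rw [min_eq_left h, max_eq_right h]
        exact ⟨h5, by rw [h5]; exact h6⟩
      · rw [min_eq_right h, max_eq_left h]
        exact ⟨h5.symm, h6⟩
    · linarith
    · simp
  · rw [sum_eq_zero]
    · positivity
    · intro g hg
      rw [mem_filter] at hg
      exact absurd ⟨g, hg.2⟩ hex

theorem sum_biUnion_le' {ι α : Type*} [DecidableEq ι] [DecidableEq α] (s : Finset ι)
    (t : ι → Finset α) (f : α → ℝ) (hf : ∀ a, 0 ≤ f a) :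
    ∑ a ∈ s.biUnion t, f a ≤ ∑ i ∈ s, ∑ a ∈ t i, f a := by
  induction s using Finset.induction_on with
  | empty => simp
  | insert i s hi ih =>
    rw [biUnion_insert, sum_insert hi]
    have h : ∑ a ∈ t i ∪ s.biUnion t, f a ≤ ∑ a ∈ t i, f a + ∑ a ∈ s.biUnion t, f a := by
      rw [← sum_union_inter]
      exact le_add_of_nonneg_right (sum_nonneg fun g _ => hf g)
    linarith

open Classical in
/-- **pattern estimate**: the patterns with an increasing self-matching without fixed points of size
at least `m` have weight at most `4^N ε^m` -/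
theorem pat_le (ε : ℝ) (hε : 0 ≤ ε) (hε1 : ε ≤ 1) {N : ℕ} (p : Fin N → Option (Q × Bool) → ℝ)
    (hnn : ∀ k o, 0 ≤ p k o) (h1 : ∀ k, ∑ o, p k o = 1) (hl : ∀ k l, p k (some l) ≤ ε) (m : ℕ) :
    ∑ g : Fin N → Option (Q × Bool) with (∃ D σ, Mat (ext g) N D σ ∧ m ≤ #D), ∏ k, p k (g k) ≤
      4 ^ N * ε ^ m := by
  let R : Finset (Finset ℕ × Finset ℕ) := (range N).powerset ×ˢ (range N).powerset
  have hpair : ∀ AB : Finset ℕ × Finset ℕ,
      ∑ g : Fin N → Option (Q × Bool) with (∃ σ, Mat (ext g) N AB.1 σ ∧ AB.1.image σ = AB.2 ∧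
        m ≤ #AB.1), ∏ k, p k (g k) ≤ ε ^ m := by
    rintro ⟨A, B⟩
    by_cases hex : ∃ (g : Fin N → Option (Q × Bool)) (σ : ℕ → ℕ), Mat (ext g) N A σ ∧
        A.image σ = B ∧ m ≤ #A
    · obtain ⟨g0, σ0, h0, hB, hm⟩ := hex
      refine le_trans ?_ ((mat_le ε hε p hnn h1 hl A σ0).trans (pow_le_pow_of_le_one hε hε1 hm))
      apply sum_le_sum_of_subset_of_nonneg
      · intro g hg
        rw [mem_filter] at hg ⊢
        obtain ⟨-, σ, h2, h3, -⟩ := hg
        have hu := mono_unique h2.mono h0.mono (h3.trans hB.symm)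
        refine ⟨mem_univ _, h0.dom, h0.cod, h0.ne, h0.mono, h2.act, ?_⟩
        intro i hi
        rw [← hu i hi]
        exact h2.eq i hi
      · intro g _ _
        exact prod_nonneg fun k _ => hnn _ _
    · rw [sum_eq_zero]
      · positivity
      · intro g hg
        rw [mem_filter] at hg
        exact absurd ⟨g, hg.2⟩ hex
  have hcov : ({g : Fin N → Option (Q × Bool) | ∃ D σ, Mat (ext g) N D σ ∧ m ≤ #D} : Finset _) ⊆
      R.biUnion fun AB => {g : Fin N → Option (Q × Bool) | ∃ σ, Mat (ext g) N AB.1 σ ∧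
        AB.1.image σ = AB.2 ∧ m ≤ #AB.1} := by
    intro g hg
    rw [mem_filter] at hg
    obtain ⟨-, D, σ, h2, h3⟩ := hg
    rw [mem_biUnion]
    refine ⟨(D, D.image σ), ?_, ?_⟩
    · rw [mem_product, mem_powerset, mem_powerset]
      constructor
      · intro i hi
        exact mem_range.2 (h2.dom i hi)
      · intro k hk
        obtain ⟨i, hi, rfl⟩ := mem_image.1 hk
        exact mem_range.2 (h2.cod i hi)
    · rw [mem_filter]
      exact ⟨mem_univ _, σ, h2, rfl, h3⟩
  have hnn' : ∀ g : Fin N → Option (Q × Bool), 0 ≤ ∏ k, p k (g k) :=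
    fun g => prod_nonneg fun k _ => hnn _ _
  calc ∑ g : Fin N → Option (Q × Bool) with (∃ D σ, Mat (ext g) N D σ ∧ m ≤ #D), ∏ k, p k (g k)
      ≤ ∑ g ∈ R.biUnion fun AB => {g : Fin N → Option (Q × Bool) | ∃ σ, Mat (ext g) N AB.1 σ ∧
        AB.1.image σ = AB.2 ∧ m ≤ #AB.1}, ∏ k, p k (g k) :=
        sum_le_sum_of_subset_of_nonneg hcov fun g _ _ => hnn' g
    _ ≤ ∑ AB ∈ R, ∑ g : Fin N → Option (Q × Bool) with (∃ σ, Mat (ext g) N AB.1 σ ∧
        AB.1.image σ = AB.2 ∧ m ≤ #AB.1), ∏ k, p k (g k) :=
        sum_biUnion_le' _ _ _ hnn'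
    _ ≤ ∑ _AB ∈ R, ε ^ m := sum_le_sum fun AB _ => hpair AB
    _ = 4 ^ N * ε ^ m := by
        rw [sum_const, card_product, card_powerset, card_range, nsmul_eq_mul]
        congr 1
        push_cast
        rw [← mul_pow]
        norm_num

/-- exponential moment of the number of lazy slots -/
theorem lz_sum : ∀ (N : ℕ) (p : Fin N → Option (Q × Bool) → ℝ), (∀ k o, 0 ≤ p k o) →
    (∀ k, ∑ o, p k o = 1) → (∀ k, p k none ≤ 1 / 32) →
    ∑ g : Fin N → Option (Q × Bool), (∏ k, p k (g k)) * 16 ^ lz (ext g) N ≤ 2 ^ N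
  | 0, p, _, _, _ => by
    rw [Fintype.sum_eq_single (fun k => k.elim0)]
    · simp [lz]
    · intro ls hls
      exact absurd (Subsingleton.elim _ _) hls
  | N + 1, p, hnn, h1, h2 => by
    rw [sum_snoc]
    have h3 : ∀ (g : Fin N → Option (Q × Bool)) (o : Option (Q × Bool)),
        (∏ k, p k ((Fin.snoc g o : Fin (N + 1) → Option (Q × Bool)) k)) *
          16 ^ lz (ext (Fin.snoc g o : Fin (N + 1) → Option (Q × Bool))) (N + 1) =
        ((∏ k : Fin N, p k.castSucc (g k)) * 16 ^ lz (ext g) N) *
          (p (Fin.last N) o * (if o = none then 16 else 1)) := by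
      intro g o
      have h4 : lz (ext (Fin.snoc g o : Fin (N + 1) → Option (Q × Bool))) (N + 1) =
          lz (ext g) N + (if o = none then 1 else 0) := by
        unfold lz
        rw [range_add_one, filter_insert, ext_snoc_eq]
        have h5 : ({t ∈ range N | ext (Fin.snoc g o : Fin (N + 1) → Option (Q × Bool)) t = none} :
            Finset ℕ) = {t ∈ range N | ext g t = none} := by
          apply filter_congr
          intro t ht
          rw [mem_range] at ht
          rw [ext_snoc_lt g o t ht]
        rw [h5]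
        split_ifs
        · rw [card_insert_of_notMem (by simp)]
        · simp
      rw [Fin.prod_univ_castSucc, h4, Fin.snoc_last,
        prod_congr rfl fun k _ => by rw [Fin.snoc_castSucc], pow_add]
      split_ifs <;> ring
    rw [sum_congr rfl fun g _ => sum_congr rfl fun o _ => h3 g o]
    have h6 : ∑ o, p (Fin.last N) o * (if o = none then 16 else 1) ≤ 2 := by
      have h7 : ∀ o, p (Fin.last N) o * (if o = none then 16 else 1) =
          p (Fin.last N) o + (if o = none then 15 * p (Fin.last N) none else 0) := by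
        intro o
        split_ifs with h
        · rw [h]; ring
        · ring
      rw [sum_congr rfl fun o _ => h7 o, sum_add_distrib, h1,
        sum_ite_eq' univ none fun _ => 15 * p (Fin.last N) none, if_pos (mem_univ _)]
      have := h2 (Fin.last N)
      linarith
    calc ∑ g : Fin N → Option (Q × Bool), ∑ o, ((∏ k : Fin N, p k.castSucc (g k)) *
          16 ^ lz (ext g) N) * (p (Fin.last N) o * (if o = none then 16 else 1))
        ≤ ∑ g : Fin N → Option (Q × Bool), ((∏ k : Fin N, p k.castSucc (g k)) *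
          16 ^ lz (ext g) N) * 2 := by
          apply sum_le_sum
          intro g _
          rw [← mul_sum]
          apply mul_le_mul_of_nonneg_left h6
          exact mul_nonneg (prod_nonneg fun k _ => hnn _ _) (by positivity)
      _ ≤ 2 ^ N * 2 := by
          rw [← sum_mul]
          exact mul_le_mul_of_nonneg_right (lz_sum N _ (fun k o => hnn _ _) (fun k => h1 _)
            (fun k => h2 _)) (by norm_num)
      _ = 2 ^ (N + 1) := by rw [pow_succ]

open Classical in
/-- the patterns with at least half of the slots lazy have weight at most `2^(-N)` -/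
theorem lazy_le {N : ℕ} (p : Fin N → Option (Q × Bool) → ℝ) (hnn : ∀ k o, 0 ≤ p k o)
    (h1 : ∀ k, ∑ o, p k o = 1) (h2 : ∀ k, p k none ≤ 1 / 32) :
    ∑ g : Fin N → Option (Q × Bool) with N ≤ 2 * lz (ext g) N, ∏ k, p k (g k) ≤ (1 / 2) ^ N := by
  have h3 := lz_sum N p hnn h1 h2
  have h4 : (4 : ℝ) ^ N * ∑ g : Fin N → Option (Q × Bool) with N ≤ 2 * lz (ext g) N,
      ∏ k, p k (g k) ≤ ∑ g : Fin N → Option (Q × Bool), (∏ k, p k (g k)) *
      16 ^ lz (ext g) N := by
    rw [mul_sum, sum_filter]
    apply sum_le_sum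
    intro g _
    have h5 : 0 ≤ ∏ k, p k (g k) := prod_nonneg fun k _ => hnn _ _
    split_ifs with h6
    · rw [mul_comm]
      apply mul_le_mul_of_nonneg_left _ h5
      have h7 : (16 : ℝ) ^ lz (ext g) N = 4 ^ (2 * lz (ext g) N) := by
        rw [pow_mul]
        norm_num
      rw [h7]
      exact pow_le_pow_right₀ (by norm_num) h6
    · exact mul_nonneg h5 (by positivity)
  have h5 := h4.trans h3
  have h6 : (0 : ℝ) < 4 ^ N := by positivity
  have h7 : ((1 : ℝ) / 2) ^ N = 2 ^ N / 4 ^ N := by
    rw [← div_pow]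
    norm_num
  rw [h7, le_div_iff₀ h6]
  linarith

/-- number of the non-lazy slots -/
def nl (g : ℕ → Option (Q × Bool)) (N : ℕ) : ℕ := #{t ∈ range N | g t ≠ none}

omit [DecidableEq Q] [Fintype Q] in
theorem nl_add_lz (g : ℕ → Option (Q × Bool)) (N : ℕ) : nl g N + lz g N = N := by
  unfold nl lz
  have := card_filter_add_card_filter_not (s := range N) (fun t => g t = none)
  rw [card_range] at this
  rw [add_comm]
  exact this

/-- bad patterns: too many lazy slots or an increasing self-matching without fixed points which has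
more than `1/c` of the non-lazy slots -/
def BadPat (c : ℕ) {N : ℕ} (g : Fin N → Option (Q × Bool)) : Prop :=
  2 * nl (ext g) N < N ∨ ∃ D σ, Mat (ext g) N D σ ∧ nl (ext g) N < c * #D

open Classical in
/-- **bad patterns** have weight at most `(1/2)^N + (1/4)^N` if the letters have weight at most
`2^(-8c)` -/
theorem badPat_le (c : ℕ) (hc : 0 < c) {N : ℕ} (p : Fin N → Option (Q × Bool) → ℝ)
    (hnn : ∀ k o, 0 ≤ p k o) (h1 : ∀ k, ∑ o, p k o = 1) (h2 : ∀ k, p k none ≤ 1 / 32)
    (h3 : ∀ k l, p k (some l) ≤ 1 / 2 ^ (8 * c)) :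
    ∑ g : Fin N → Option (Q × Bool) with BadPat c g, ∏ k, p k (g k) ≤
      (1 / 2) ^ N + (1 / 4) ^ N := by
  have hnn' : ∀ g : Fin N → Option (Q × Bool), 0 ≤ ∏ k, p k (g k) :=
    fun g => prod_nonneg fun k _ => hnn _ _
  have h2c : 0 < 2 * c := by omega
  obtain ⟨m, hm⟩ : ∃ m, m = (N + (2 * c - 1)) / (2 * c) := ⟨_, rfl⟩
  have hm1 : N ≤ 2 * c * m := by
    have := Nat.div_add_mod (N + (2 * c - 1)) (2 * c)
    have h4 := Nat.mod_lt (N + (2 * c - 1)) h2c
    rw [← hm] at this
    omega
  have hm2 : ∀ D : ℕ, N < 2 * c * D + 1 → m ≤ D := by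
    intro D hD
    rw [hm, Nat.div_le_iff_le_mul_add_pred h2c]
    omega
  have hcov : ({g : Fin N → Option (Q × Bool) | BadPat c g} : Finset _) ⊆
      ({g : Fin N → Option (Q × Bool) | N ≤ 2 * lz (ext g) N} : Finset _) ∪
      ({g : Fin N → Option (Q × Bool) | ∃ D σ, Mat (ext g) N D σ ∧ m ≤ #D} :
        Finset _) := by
    intro g hg
    rw [mem_filter] at hg
    rw [mem_union, mem_filter, mem_filter]
    have h4 := nl_add_lz (ext g) N
    rcases hg.2 with h5 | ⟨D, σ, h5, h6⟩
    · left
      exact ⟨mem_univ _, by omega⟩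
    · by_cases h7 : N ≤ 2 * lz (ext g) N
      · left
        exact ⟨mem_univ _, h7⟩
      · right
        refine ⟨mem_univ _, D, σ, h5, hm2 _ ?_⟩
        rw [mul_assoc]
        omega
  have hA := lazy_le p hnn h1 h2
  have hle1 : (1 : ℝ) / 2 ^ (8 * c) ≤ 1 := by
    rw [div_le_one (by positivity)]
    exact one_le_pow₀ (by norm_num)
  have hB := pat_le (1 / 2 ^ (8 * c)) (by positivity) hle1 p hnn h1 h3 m
  have hC : (4 : ℝ) ^ N * (1 / 2 ^ (8 * c)) ^ m ≤ (1 / 4) ^ N := by
    have h8 : ((1 : ℝ) / 2 ^ (8 * c)) ^ m = (1 / 16) ^ (2 * c * m) := by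
      rw [show (1 : ℝ) / 2 ^ (8 * c) = (1 / 16) ^ (2 * c) by
        rw [one_div, one_div, inv_pow, show (16 : ℝ) = 2 ^ 4 by norm_num, ← pow_mul]
        congr 2
        ring]
      rw [← pow_mul]
    have h9 : ((1 : ℝ) / 16) ^ (2 * c * m) ≤ (1 / 16) ^ N :=
      pow_le_pow_of_le_one (by norm_num) (by norm_num) hm1
    calc (4 : ℝ) ^ N * (1 / 2 ^ (8 * c)) ^ m ≤ 4 ^ N * (1 / 16) ^ N := by
          rw [h8]
          exact mul_le_mul_of_nonneg_left h9 (by positivity)
      _ = (1 / 4) ^ N := by
          rw [← mul_pow]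
          norm_num
  calc ∑ g : Fin N → Option (Q × Bool) with BadPat c g, ∏ k, p k (g k)
      ≤ ∑ g ∈ ({g : Fin N → Option (Q × Bool) | N ≤ 2 * lz (ext g) N} : Finset _) ∪
        ({g : Fin N → Option (Q × Bool) | ∃ D σ, Mat (ext g) N D σ ∧ m ≤ #D} :
        Finset _), ∏ k, p k (g k) := sum_le_sum_of_subset_of_nonneg hcov fun g _ _ => hnn' g
    _ ≤ ∑ g : Fin N → Option (Q × Bool) with N ≤ 2 * lz (ext g) N, ∏ k, p k (g k) +
        ∑ g : Fin N → Option (Q × Bool) with (∃ D σ, Mat (ext g) N D σ ∧ m ≤ #D),
          ∏ k, p k (g k) := by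
        rw [← sum_union_inter]
        exact le_add_of_nonneg_right (sum_nonneg fun g _ => hnn' g)
    _ ≤ (1 / 2) ^ N + (1 / 4) ^ N := add_le_add hA (hB.trans hC)

end Pool.Agent.Helper4.FS
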