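import Pool.Agent.Helper86.FS.StartGoals2

/-! Project FS (MP_75608d_al), part START: truncation (packet TRU). -/

set_option autoImplicit false

namespace Pool.Agent.Helper4.FS

open Equiv Pool.Agent.Helper3.AK Pool.Agent.Helper86.FS

variable {n b : ℕ}

/-- the bijection of the injective tuples given by a permutation -/
def emb (w : Perm (Fin n)) : (Fin b ↪ Fin n) ≃ (Fin b ↪ Fin n) where
  toFun a := a.trans w.toEmbedding
  invFun a := a.trans w.symm.toEmbedding
  left_inv a := by ext i; simp
  right_inv a := by ext i; simp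

lemma sum_emb (w : Perm (Fin n)) (F : (Fin b ↪ Fin n) → ℝ) :
    ∑ x : Fin b ↪ Fin n, F (x.trans w.toEmbedding) = ∑ x, F x := (emb w).sum_comp F

/-- energy of a permutation -/
lemma energy (w : Perm (Fin n)) (F : Fn n b) :
    ∑ x : Fin b ↪ Fin n, (F (x.trans w.toEmbedding) - F x) ^ 2 = 2 * ip F F - 2 * ip F (Act w F) := by
  have h1 : ∑ x : Fin b ↪ Fin n, F (x.trans w.toEmbedding) ^ 2 = ∑ x, F x ^ 2 := sum_emb w fun x => F x ^ 2
  unfold ip
  simp only [Act_apply]
  calc ∑ x : Fin b ↪ Fin n, (F (x.trans w.toEmbedding) - F x) ^ 2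
      = ∑ x : Fin b ↪ Fin n, (F (x.trans w.toEmbedding) ^ 2 + F x ^ 2 - 2 * (F x * F (x.trans w.toEmbedding))) :=
        Finset.sum_congr rfl fun x _ => by ring
    _ = ∑ x : Fin b ↪ Fin n, F (x.trans w.toEmbedding) ^ 2 + ∑ x, F x ^ 2 -
        2 * ∑ x : Fin b ↪ Fin n, F x * F (x.trans w.toEmbedding) := by
        rw [Finset.sum_sub_distrib, Finset.sum_add_distrib, Finset.mul_sum]
    _ = 2 * ∑ x, F x * F x - 2 * ∑ x : Fin b ↪ Fin n, F x * F (x.trans w.toEmbedding) := by
        rw [h1, show ∑ x, F x * F x = ∑ x, F x ^ 2 from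
          Finset.sum_congr rfl fun x _ => by ring]
        ring

/-- **TRU** -/
theorem tru : TRUStmt := by
  classical
  intro n b f hf hff
  set S := ∑ x, f x with hS
  have hff' : ∑ x, f x ^ 2 = 1 := by
    rw [← hff]; unfold ip
    exact Finset.sum_congr rfl fun x _ => by ring
  have hSpos : 0 < S := by
    rcases (Finset.sum_nonneg fun x _ => hf x).lt_or_eq with h | h
    · exact h
    · exfalso
      have h0 : ∀ x, f x = 0 := by
        intro x
        have := (Finset.sum_eq_zero_iff_of_nonneg (fun x _ => hf x)).1 h.symm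
        exact this x (Finset.mem_univ _)
      rw [Finset.sum_eq_zero fun x _ => by rw [h0 x]; ring] at hff'
      exact zero_ne_one hff'
  set θ := 1 / (4 * S) with hθ
  have hθpos : 0 < θ := by positivity
  have hθS : θ * S = 1 / 4 := by
    rw [hθ]; field_simp
  let u : Fn n b := fun x => max (f x - θ) 0
  have hu0 : ∀ x, 0 ≤ u x := fun x => le_max_right _ _
  have hu1 : ∀ x, f x ^ 2 - 2 * θ * f x ≤ u x ^ 2 := by
    intro x
    rcases le_total (f x) θ with h | h
    · have : u x = 0 := max_eq_right (by linarith)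
      rw [this]
      have := hf x
      nlinarith
    · have : u x = f x - θ := max_eq_left (by linarith)
      rw [this]
      nlinarith [sq_nonneg θ]
  set A := ∑ x, u x ^ 2 with hA
  have hA2 : 1 / 2 ≤ A := by
    calc (1 : ℝ) / 2 = ∑ x, (f x ^ 2 - 2 * θ * f x) := by
          rw [Finset.sum_sub_distrib, hff', ← Finset.mul_sum, ← hS, mul_assoc, hθS]
          norm_num
      _ ≤ A := Finset.sum_le_sum fun x _ => hu1 x
  have hApos : 0 < A := by linarith
  have hsq : 0 < Real.sqrt A := Real.sqrt_pos.2 hApos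
  have hsq2 : Real.sqrt A ^ 2 = A := Real.sq_sqrt hApos.le
  have huip : ip u u = A := by
    unfold ip
    exact Finset.sum_congr rfl fun x _ => by ring
  refine ⟨fun x => u x / Real.sqrt A, fun x => div_nonneg (hu0 x) hsq.le, ?_, ?_, ?_⟩
  · unfold ip
    rw [Finset.sum_congr rfl fun x _ => show u x / Real.sqrt A * (u x / Real.sqrt A) =
      u x ^ 2 / Real.sqrt A ^ 2 by ring, ← Finset.sum_div, hsq2]
    exact div_self hApos.ne'
  · rw [Nat.card_eq_fintype_card, Fintype.card_subtype]
    have hsub : ∀ x ∈ Finset.univ.filter (fun x : Fin b ↪ Fin n => u x / Real.sqrt A ≠ 0),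
        θ ≤ f x := by
      intro x hx
      rw [Finset.mem_filter] at hx
      by_contra hlt
      push Not at hlt
      apply hx.2
      have : u x = 0 := max_eq_right (by linarith)
      rw [this, zero_div]
    have h1 : ((Finset.univ.filter (fun x : Fin b ↪ Fin n => u x / Real.sqrt A ≠ 0)).card : ℝ) * θ ≤
        S := by
      calc ((Finset.univ.filter (fun x : Fin b ↪ Fin n => u x / Real.sqrt A ≠ 0)).card : ℝ) * θ
          = ∑ _x ∈ Finset.univ.filter (fun x : Fin b ↪ Fin n => u x / Real.sqrt A ≠ 0), θ := by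
            rw [Finset.sum_const, nsmul_eq_mul]
        _ ≤ ∑ x ∈ Finset.univ.filter (fun x : Fin b ↪ Fin n => u x / Real.sqrt A ≠ 0), f x :=
            Finset.sum_le_sum hsub
        _ ≤ S := Finset.sum_le_sum_of_subset_of_nonneg (Finset.filter_subset _ _)
            fun x _ _ => hf x
    have h2 : ((Finset.univ.filter (fun x : Fin b ↪ Fin n => u x / Real.sqrt A ≠ 0)).card : ℝ) =
        4 * S * (((Finset.univ.filter
          (fun x : Fin b ↪ Fin n => u x / Real.sqrt A ≠ 0)).card : ℝ) * θ) := by
      rw [hθ]; field_simp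
    rw [h2]
    calc 4 * S * (((Finset.univ.filter
          (fun x : Fin b ↪ Fin n => u x / Real.sqrt A ≠ 0)).card : ℝ) * θ) ≤ 4 * S * S :=
          mul_le_mul_of_nonneg_left h1 (by positivity)
      _ = 4 * S ^ 2 := by ring
  · intro w g hg
    have hE1 := energy w f
    have hE2 := energy w u
    have hle : ∑ x : Fin b ↪ Fin n, (u (x.trans w.toEmbedding) - u x) ^ 2 ≤
        ∑ x : Fin b ↪ Fin n, (f (x.trans w.toEmbedding) - f x) ^ 2 := by
      apply Finset.sum_le_sum
      intro x _
      rw [← sq_abs (u _ - u x), ← sq_abs (f _ - f x)]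
      apply pow_le_pow_left₀ (abs_nonneg _)
      have h1 := abs_max_sub_max_le_abs (f (x.trans w.toEmbedding) - θ) (f x - θ) 0
      have h2 : f (x.trans w.toEmbedding) - θ - (f x - θ) = f (x.trans w.toEmbedding) - f x := by
        ring
      rw [h2] at h1
      exact h1
    rw [hE1, hE2, hff, huip] at hle
    have h3 : A - ip u (Act w u) ≤ g := by linarith
    have h4 : ip (fun x => u x / Real.sqrt A) (Act w fun x => u x / Real.sqrt A) =
        ip u (Act w u) / A := by
      unfold ip
      rw [Finset.sum_div]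
      apply Finset.sum_congr rfl
      intro x _
      rw [Act_apply, Act_apply]
      rw [show u x / Real.sqrt A * (u (x.trans w.toEmbedding) / Real.sqrt A) =
        u x * u (x.trans w.toEmbedding) / Real.sqrt A ^ 2 by ring, hsq2]
    have hg0 : 0 ≤ g := by
      have h5 : 0 ≤ ∑ x : Fin b ↪ Fin n, (u (x.trans w.toEmbedding) - u x) ^ 2 :=
        Finset.sum_nonneg fun x _ => sq_nonneg _
      rw [hE2, huip] at h5
      linarith
    rw [h4, le_div_iff₀ hApos]
    nlinarith

end Pool.Agent.Helper4.FS
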