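import Mathlib

/-! Project FS (MP_75608d_al), closing lemma: paths in worlds `y : Fin q → Perm (Fin n)`, the swap
lemma. -/

namespace Pool.Agent.Helper4.FS

open Equiv

/-- a letter: index of the fresh generator and a sign -/
abbrev Lt (q : ℕ) := Fin q × Bool

/-- a world: `q` permutations -/
abbrev World (q n : ℕ) := Fin q → Perm (Fin n)

/-- a step of a program: a fixed permutation (constant) or a letter -/
abbrev Stp (q n : ℕ) := Perm (Fin n) ⊕ Lt q

variable {q n : ℕ}

/-- the permutation of a letter -/
def lp (y : World q n) (m : Lt q) : Perm (Fin n) := if m.2 then y m.1 else (y m.1)⁻¹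

/-- the permutation of a step -/
def act (y : World q n) : Stp q n → Perm (Fin n)
  | Sum.inl c => c
  | Sum.inr m => lp y m

/-- the edge `(generator, source)` which is used when the letter `m` is crossed from `p` -/
def ed (y : World q n) (m : Lt q) (p : Fin n) : Fin q × Fin n :=
  (m.1, if m.2 then p else (y m.1)⁻¹ p)

/-- the signed generator of the edge group of a step -/
noncomputable def eg (y : World q n) : Stp q n → Fin n → FreeGroup (Fin q × Fin n)
  | Sum.inl _, _ => 1
  | Sum.inr m, p => if m.2 then FreeGroup.of (ed y m p) else (FreeGroup.of (ed y m p))⁻¹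

/-- the permutation of the steps `i, …, i+t-1` -/
def TT (P : ℕ → Stp q n) (y : World q n) (i : ℕ) : ℕ → Perm (Fin n)
  | 0 => 1
  | t + 1 => act y (P (i + t)) * TT P y i t

/-- the position after the steps `i, …, i+t-1` of the path which is at `x` before step `i` -/
def pos (P : ℕ → Stp q n) (y : World q n) (i : ℕ) (x : Fin n) (t : ℕ) : Fin n := TT P y i t x

/-- the product of the signed edges (last step on the left) -/
noncomputable def prd (P : ℕ → Stp q n) (y : World q n) (i : ℕ) (x : Fin n) :
    ℕ → FreeGroup (Fin q × Fin n)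
  | 0 => 1
  | t + 1 => eg y (P (i + t)) (pos P y i x t) * prd P y i x t

/-- the edge `e` is used in one of the steps `i, …, i+t-1` -/
def Uses (P : ℕ → Stp q n) (y : World q n) (i : ℕ) (x : Fin n) (t : ℕ) (e : Fin q × Fin n) : Prop :=
  ∃ k < t, ∃ m, P (i + k) = Sum.inr m ∧ ed y m (pos P y i x k) = e

/-- worlds which agree with `y0` on the edges of `K` -/
def Om (K : Finset (Fin q × Fin n)) (y0 : World q n) : Finset (World q n) :=
  Finset.univ.filter (fun y => ∀ e ∈ K, y e.1 e.2 = y0 e.1 e.2)

lemma mem_Om {K : Finset (Fin q × Fin n)} {y0 y : World q n} :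
    y ∈ Om K y0 ↔ ∀ e ∈ K, y e.1 e.2 = y0 e.1 e.2 := by
  simp [Om]

@[simp] lemma pos_zero (P : ℕ → Stp q n) (y : World q n) (i : ℕ) (x : Fin n) :
    pos P y i x 0 = x := rfl

lemma pos_succ (P : ℕ → Stp q n) (y : World q n) (i : ℕ) (x : Fin n) (t : ℕ) :
    pos P y i x (t + 1) = act y (P (i + t)) (pos P y i x t) := rfl

@[simp] lemma prd_zero (P : ℕ → Stp q n) (y : World q n) (i : ℕ) (x : Fin n) :
    prd P y i x 0 = 1 := rfl

lemma prd_succ (P : ℕ → Stp q n) (y : World q n) (i : ℕ) (x : Fin n) (t : ℕ) :
    prd P y i x (t + 1) = eg y (P (i + t)) (pos P y i x t) * prd P y i x t := rfl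

lemma TT_add (P : ℕ → Stp q n) (y : World q n) (i s t : ℕ) :
    TT P y i (s + t) = TT P y (i + s) t * TT P y i s := by
  induction t with
  | zero => simp [TT]
  | succ t ih => rw [← Nat.add_assoc, TT, ih, TT, ← Nat.add_assoc, mul_assoc]

lemma pos_add (P : ℕ → Stp q n) (y : World q n) (i : ℕ) (x : Fin n) (s t : ℕ) :
    pos P y i x (s + t) = pos P y (i + s) (pos P y i x s) t := by
  simp [pos, TT_add]

lemma prd_add (P : ℕ → Stp q n) (y : World q n) (i : ℕ) (x : Fin n) (s t : ℕ) :
    prd P y i x (s + t) = prd P y (i + s) (pos P y i x s) t * prd P y i x s := by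
  induction t with
  | zero => simp
  | succ t ih => rw [← Nat.add_assoc, prd_succ, ih, prd_succ, pos_add, ← Nat.add_assoc, mul_assoc]

lemma pos_inj (P : ℕ → Stp q n) (y : World q n) (i t : ℕ) {x x' : Fin n}
    (h : pos P y i x t = pos P y i x' t) : x = x' := (TT P y i t).injective h

lemma Uses.mono {P : ℕ → Stp q n} {y : World q n} {i : ℕ} {x : Fin n} {t t' : ℕ}
    {e : Fin q × Fin n} (h : Uses P y i x t e) (ht : t ≤ t') : Uses P y i x t' e := by
  obtain ⟨k, hk, m, h1, h2⟩ := h
  exact ⟨k, by omega, m, h1, h2⟩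

/-- `y` with the images of `r` and `u` under the generator `j` exchanged -/
def sw (y : World q n) (j : Fin q) (r u : Fin n) : World q n :=
  Function.update y j (y j * swap r u)

lemma sw_mem {K : Finset (Fin q × Fin n)} {y0 y : World q n} {j : Fin q} {r u : Fin n}
    (hr : (j, r) ∉ K) (hu : (j, u) ∉ K) (hy : y ∈ Om K y0) : sw y j r u ∈ Om K y0 := by
  rw [mem_Om] at hy ⊢
  rintro ⟨k, p⟩ he
  rw [← hy _ he]
  by_cases hk : k = j
  · subst hk
    have h1 : p ≠ r := fun h => hr (h ▸ he)
    have h2 : p ≠ u := fun h => hu (h ▸ he)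
    simp [sw, swap_apply_of_ne_of_ne h1 h2]
  · simp [sw, hk]

lemma sw_sw (y : World q n) (j : Fin q) (r u : Fin n) : sw (sw y j r u) j r u = y := by
  funext k
  by_cases hk : k = j
  · subst hk
    simp [sw, mul_assoc]
  · simp [sw, hk]

/-- a step which does not use the edges `(j,r)`, `(j,u)` is not changed by `sw` -/
lemma lp_sw {y : World q n} {j : Fin q} {r u : Fin n} {m : Lt q} {p : Fin n}
    (h1 : ed y m p ≠ (j, r)) (h2 : ed y m p ≠ (j, u)) :
    lp (sw y j r u) m p = lp y m p ∧ ed (sw y j r u) m p = ed y m p := by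
  obtain ⟨k, b⟩ := m
  by_cases hk : k = j
  · subst hk
    cases b
    · simp only [ed, Bool.false_eq_true, if_false, ne_eq, Prod.mk.injEq, true_and] at h1 h2
      have : (sw y k r u k)⁻¹ p = (y k)⁻¹ p := by
        rw [show (sw y k r u k) = y k * swap r u by simp [sw], mul_inv_rev, swap_inv,
          Perm.mul_apply, swap_apply_of_ne_of_ne h1 h2]
      simp [lp, ed, this]
    · simp only [ed, if_true, ne_eq, Prod.mk.injEq, true_and] at h1 h2
      have : (sw y k r u k) p = y k p := by
        simp [sw, swap_apply_of_ne_of_ne h1 h2]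
      simp [lp, ed, this]
  · have : sw y j r u k = y k := by simp [sw, hk]
    simp [lp, ed, this]

lemma pos_sw {P : ℕ → Stp q n} {y : World q n} {i : ℕ} {x : Fin n} {j : Fin q} {r u : Fin n}
    (t : ℕ) (h1 : ¬ Uses P y i x t (j, r)) (h2 : ¬ Uses P y i x t (j, u)) :
    pos P (sw y j r u) i x t = pos P y i x t := by
  induction t with
  | zero => rfl
  | succ t ih =>
    rw [pos_succ, pos_succ, ih (fun h => h1 (h.mono (by omega))) (fun h => h2 (h.mono (by omega)))]
    rcases hs : P (i + t) with c | m
    · rfl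
    · refine (lp_sw (fun h => h1 ⟨t, by omega, m, hs, h⟩) (fun h => h2 ⟨t, by omega, m, hs, h⟩)).1

lemma uses_sw {P : ℕ → Stp q n} {y : World q n} {i : ℕ} {x : Fin n} {j : Fin q} {r u : Fin n}
    (t : ℕ) (h1 : ¬ Uses P y i x t (j, r)) (h2 : ¬ Uses P y i x t (j, u)) (e : Fin q × Fin n) :
    Uses P (sw y j r u) i x t e ↔ Uses P y i x t e := by
  constructor
  · rintro ⟨k, hk, m, hm, he⟩
    refine ⟨k, hk, m, hm, ?_⟩
    rw [pos_sw k (fun h => h1 (h.mono hk.le)) (fun h => h2 (h.mono hk.le)),
      (lp_sw (fun h => h1 ⟨k, hk, m, hm, h⟩) (fun h => h2 ⟨k, hk, m, hm, h⟩)).2] at he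
    exact he
  · rintro ⟨k, hk, m, hm, he⟩
    refine ⟨k, hk, m, hm, ?_⟩
    rw [pos_sw k (fun h => h1 (h.mono hk.le)) (fun h => h2 (h.mono hk.le)),
      (lp_sw (fun h => h1 ⟨k, hk, m, hm, h⟩) (fun h => h2 ⟨k, hk, m, hm, h⟩)).2]
    exact he

/-- the finite set of the edges used in `t` steps -/
noncomputable def usedSet (P : ℕ → Stp q n) (y : World q n) (i : ℕ) (x : Fin n) (t : ℕ) :
    Finset (Fin q × Fin n) :=
  (Finset.range t).biUnion (fun k => match P (i + k) with
    | Sum.inl _ => ∅
    | Sum.inr m => {ed y m (pos P y i x k)})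

lemma mem_usedSet {P : ℕ → Stp q n} {y : World q n} {i : ℕ} {x : Fin n} {t : ℕ}
    {e : Fin q × Fin n} : e ∈ usedSet P y i x t ↔ Uses P y i x t e := by
  unfold usedSet Uses
  rw [Finset.mem_biUnion]
  constructor
  · rintro ⟨k, hk, he⟩
    refine ⟨k, Finset.mem_range.1 hk, ?_⟩
    rcases hs : P (i + k) with c | m
    · rw [hs] at he; simp at he
    · rw [hs] at he
      exact ⟨m, rfl, (Finset.mem_singleton.1 he).symm⟩
  · rintro ⟨k, hk, m, hm, he⟩
    refine ⟨k, Finset.mem_range.2 hk, ?_⟩
    rw [hm]
    exact Finset.mem_singleton.2 he.symm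

lemma card_usedSet_le (P : ℕ → Stp q n) (y : World q n) (i : ℕ) (x : Fin n) (t : ℕ) :
    (usedSet P y i x t).card ≤ t := by
  unfold usedSet
  refine (Finset.card_biUnion_le).trans ?_
  calc ∑ k ∈ Finset.range t, _ ≤ ∑ _k ∈ Finset.range t, 1 := by
        refine Finset.sum_le_sum fun k _ => ?_
        rcases P (i + k) with c | m <;> simp
    _ = t := by simp

/-- the event of the swap lemma: the path from `x` (before step `i`) crosses the letter `m` after `s`
steps over an edge `d` which is not in `K` and not used before; the path which is at the end point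
of this crossing before step `b` does not use `d` in the `t` steps `b, …` and ends at `z` -/
def SwEv (P : ℕ → Stp q n) (K : Finset (Fin q × Fin n)) (i : ℕ) (x : Fin n) (s : ℕ) (m : Lt q)
    (b t : ℕ) (z : Fin n) (y : World q n) : Prop :=
  ed y m (pos P y i x s) ∉ K ∧ ¬ Uses P y i x s (ed y m (pos P y i x s)) ∧
  ¬ Uses P y b (lp y m (pos P y i x s)) t (ed y m (pos P y i x s)) ∧
  pos P y b (lp y m (pos P y i x s)) t = z

open Classical in
/-- **swap lemma**: the event `SwEv` has probability at most `1/(n-|K|-s-t-1)` -/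
theorem swap_lemma (P : ℕ → Stp q n) (K : Finset (Fin q × Fin n)) (y0 : World q n) (i : ℕ)
    (x : Fin n) (s : ℕ) (m : Lt q) (b t : ℕ) (z : Fin n) :
    ((Om K y0).filter (SwEv P K i x s m b t z)).card * (n - (K.card + s + t + 1)) ≤
      (Om K y0).card := by
  classical
  set E := (Om K y0).filter (SwEv P K i x s m b t z) with hE
  -- the admissible sources
  let Bad : World q n → Finset (Fin q × Fin n) := fun y =>
    K ∪ usedSet P y i x s ∪ usedSet P y b (lp y m (pos P y i x s)) t ∪ {ed y m (pos P y i x s)}
  let U : World q n → Finset (Fin n) := fun y =>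
    Finset.univ.filter (fun u => (m.1, u) ∉ Bad y)
  have hUcard : ∀ y, n - (K.card + s + t + 1) ≤ (U y).card := by
    intro y
    have h1 : (Finset.univ.filter (fun u : Fin n => (m.1, u) ∈ Bad y)).card ≤ (Bad y).card := by
      refine Finset.card_le_card_of_injOn (fun u => (m.1, u)) ?_ ?_
      · intro u hu
        simpa using hu
      · intro u _ v _ h
        simpa using h
    have h2 : (Bad y).card ≤ K.card + s + t + 1 := by
      refine (Finset.card_union_le _ _).trans ?_
      refine Nat.add_le_add ((Finset.card_union_le _ _).trans (Nat.add_le_add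
        ((Finset.card_union_le _ _).trans (Nat.add_le_add le_rfl (card_usedSet_le _ _ _ _ _)))
        (card_usedSet_le _ _ _ _ _))) (by simp)
    have h3 := Finset.card_filter_add_card_filter_not (s := (Finset.univ : Finset (Fin n)))
      (fun u : Fin n => (m.1, u) ∈ Bad y)
    simp only [Finset.card_univ, Fintype.card_fin] at h3
    have h4 : (U y).card = (Finset.univ.filter (fun u : Fin n => ¬ (m.1, u) ∈ Bad y)).card := rfl
    omega
  have key : (E.sigma U).card ≤ (Om K y0).card := by
    refine Finset.card_le_card_of_injOn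
      (fun yu : (Σ _ : World q n, Fin n) => sw yu.1 m.1 (ed yu.1 m (pos P yu.1 i x s)).2 yu.2)
      ?_ ?_
    · rintro ⟨y, u⟩ h
      rw [Finset.mem_coe, Finset.mem_sigma] at h
      obtain ⟨hy, hu⟩ := h
      simp only [hE, Finset.mem_filter] at hy
      simp only [U, Bad, Finset.mem_filter, Finset.mem_univ, true_and, Finset.mem_union,
        Finset.mem_singleton, not_or] at hu
      exact sw_mem hy.2.1 hu.1.1.1 hy.1
    · rintro ⟨y, u⟩ h ⟨y', u'⟩ h' heq
      rw [Finset.mem_coe, Finset.mem_sigma] at h h'
      obtain ⟨hy, hu⟩ := h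
      obtain ⟨hy', hu'⟩ := h'
      simp only [hE, Finset.mem_filter] at hy hy'
      simp only [U, Bad, Finset.mem_filter, Finset.mem_univ, true_and, Finset.mem_union,
        Finset.mem_singleton, not_or, mem_usedSet] at hu hu'
      obtain ⟨-, hK, hs1, hs2, hz⟩ := hy
      obtain ⟨-, hK', hs1', hs2', hz'⟩ := hy'
      obtain ⟨⟨⟨huK, hu1⟩, hu2⟩, hu3⟩ := hu
      obtain ⟨⟨⟨huK', hu1'⟩, hu2'⟩, hu3'⟩ := hu'
      simp only at heq
      set r := (ed y m (pos P y i x s)).2 with hr
      set r' := (ed y' m (pos P y' i x s)).2 with hr'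
      have hed : ed y m (pos P y i x s) = (m.1, r) := by
        rw [hr]; simp [ed]
      have hed' : ed y' m (pos P y' i x s) = (m.1, r') := by
        rw [hr']; simp [ed]
      rw [hed] at hs1 hs2 hu3
      rw [hed'] at hs1' hs2' hu3'
      set Y := sw y m.1 r u with hY
      have heY : Y = sw y' m.1 r' u' := heq
      -- path one
      have p1 : pos P Y i x s = pos P y i x s := pos_sw s hs1 hu1
      have p1' : pos P Y i x s = pos P y' i x s := by rw [heY]; exact pos_sw s hs1' hu1'
      have hp : pos P y i x s = pos P y' i x s := p1 ▸ p1'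
      -- path two
      have p2 : pos P Y b (lp y m (pos P y i x s)) t = z := by
        rw [hY, pos_sw t hs2 hu2, hz]
      have p2' : pos P Y b (lp y' m (pos P y' i x s)) t = z := by
        rw [heY, pos_sw t hs2' hu2', hz']
      have he : lp y m (pos P y i x s) = lp y' m (pos P y' i x s) :=
        pos_inj P Y b t (p2.trans p2'.symm)
      set p := pos P y i x s with hpdef
      rw [← hp] at he hed' hr'
      obtain ⟨j, σ⟩ := m
      cases σ
      · -- negative letter: the end point is the source of the edge
        have hrr : r = lp y (j, false) p := by simp [hr, ed, lp]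
        have hrr' : r' = lp y' (j, false) p := by simp [hr', ed, lp]
        have hrr2 : r = r' := by rw [hrr, hrr', he]
        have hYp : (Y j)⁻¹ p = u := by
          have : y j r = p := by rw [hrr]; simp [lp]
          rw [Perm.inv_eq_iff_eq]
          simp [hY, sw, this]
        have hYp' : (Y j)⁻¹ p = u' := by
          have : y' j r' = p := by rw [hrr']; simp [lp]
          rw [Perm.inv_eq_iff_eq, heY]
          simp [sw, this]
        have huu : u = u' := hYp ▸ hYp'
        have : y = y' := by
          have e1 := sw_sw y j r u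
          have e2 := sw_sw y' j r' u'
          rw [← e1, ← e2]
          change sw Y j r u = sw (sw y' j r' u') j r' u'
          rw [heY, hrr2, huu]
        subst this
        subst huu
        rfl
      · have hrr : r = p := by simp [hr, ed]
        have hrr' : r' = p := by simp [hr', ed]
        have hrr2 : r = r' := by rw [hrr, hrr']
        have hYp : Y j u = lp y (j, true) p := by
          simp [hY, sw, lp, hrr]
        have hYp' : Y j u' = lp y' (j, true) p := by
          rw [heY]; simp [sw, lp, hrr']
        have huu : u = u' := (Y j).injective (hYp.trans (he.trans hYp'.symm))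
        have : y = y' := by
          have e1 := sw_sw y j r u
          have e2 := sw_sw y' j r' u'
          rw [← e1, ← e2]
          change sw Y j r u = sw (sw y' j r' u') j r' u'
          rw [heY, hrr2, huu]
        subst this
        subst huu
        rfl
  calc E.card * (n - (K.card + s + t + 1)) = ∑ _y ∈ E, (n - (K.card + s + t + 1)) := by simp
    _ ≤ ∑ y ∈ E, (U y).card := Finset.sum_le_sum fun y _ => hUcard y
    _ = (E.sigma U).card := by rw [Finset.card_sigma]
    _ ≤ (Om K y0).card := key

end Pool.Agent.Helper4.FS
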