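import Pool.Agent.Helper4.FS.Edge

/-! Project FS (MP_75608d_al), closing lemma: the coincidence lemma. -/

namespace Pool.Agent.Helper4.FS

open Equiv

variable {q n : ℕ}

/-- the signed generator of a crossing -/
lemma eg_inr (y : World q n) (m : Lt q) (p : Fin n) :
    eg y (Sum.inr m) p =
      if m.2 then FreeGroup.of (ed y m p) else (FreeGroup.of (ed y m p))⁻¹ := rfl

/-- two crossings of the same edge in the same direction -/
lemma same_dir {y : World q n} {j : Fin q} {σ : Bool} {p p' : Fin n}
    (h : ed y (j, σ) p = ed y (j, σ) p') : p = p' := by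
  cases σ
  · simpa [ed] using h
  · simpa [ed] using h

/-- two crossings of the same edge in opposite directions -/
lemma opp_dir {y : World q n} {j : Fin q} {σ τ : Bool} {p p' : Fin n} (hs : σ ≠ τ)
    (h : ed y (j, σ) p = ed y (j, τ) p') :
    p = lp y (j, τ) p' ∧ lp y (j, σ) p = p' := by
  cases σ <;> cases τ
  · exact absurd rfl hs
  · simp only [ed, Bool.false_eq_true, if_false, if_true, Prod.mk.injEq, true_and] at h
    refine ⟨?_, ?_⟩
    · simp [lp, ← h]
    · simp [lp, ← h]
  · simp only [ed, Bool.false_eq_true, if_false, if_true, Prod.mk.injEq, true_and] at h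
    refine ⟨?_, ?_⟩
    · simp [lp, h]
    · simp [lp, h]
  · exact absurd rfl hs

/-- the exponent sum of the generator `d` -/
noncomputable def expo (d : Fin q × Fin n) : FreeGroup (Fin q × Fin n) →* Multiplicative ℤ :=
  FreeGroup.lift (fun e => if e = d then Multiplicative.ofAdd 1 else 1)

lemma expo_prd {P : ℕ → Stp q n} {y : World q n} {i : ℕ} {x : Fin n} {d : Fin q × Fin n} (t : ℕ)
    (h : ¬ Uses P y i x t d) : expo d (prd P y i x t) = 1 := by
  induction t with
  | zero => simp
  | succ t ih =>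
    rw [prd_succ, map_mul, ih (fun h' => h (h'.mono (by omega))), mul_one]
    rcases hs : P (i + t) with c | m
    · simp [eg]
    · have : ed y m (pos P y i x t) ≠ d := fun h' => h ⟨t, by omega, m, hs, h'⟩
      rw [eg_inr]
      split_ifs
      · simp [expo, this]
      · simp [expo, this]

lemma expo_eg {y : World q n} {m : Lt q} {p : Fin n} : expo (ed y m p) (eg y (Sum.inr m) p) ≠ 1 := by
  rw [eg_inr]
  split_ifs
  · simp only [expo, FreeGroup.lift_apply_of, if_true]
    decide
  · simp only [expo, map_inv, FreeGroup.lift_apply_of, if_true]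
    decide

/-- the structure of a minimal closed path with non-trivial product -/
theorem min_coinc {P : ℕ → Stp q n} {y : World q n} {i : ℕ} {x : Fin n} {ℓ : ℕ}
    (hclosed : pos P y i x ℓ = x) (hprd : prd P y i x ℓ ≠ 1)
    (hmin : ∀ a b, a ≤ b → b ≤ ℓ → b - a < ℓ → pos P y i x a = pos P y i x b →
      prd P y i x a = prd P y i x b) :
    ∃ s s' m, s < ℓ ∧ s' < ℓ ∧ P (i + s') = Sum.inr m ∧ P (i + s) = Sum.inr m ∧
      ¬ Uses P y i x s (ed y m (pos P y i x s)) ∧
      ¬ Uses P y (i + s' + 1) (lp y m (pos P y i x s)) (ℓ - s' - 1) (ed y m (pos P y i x s)) ∧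
      pos P y (i + s' + 1) (lp y m (pos P y i x s)) (ℓ - s' - 1) = x := by
  classical
  have hℓ : 0 < ℓ := by
    rcases Nat.eq_zero_or_pos ℓ with h | h
    · subst h; simp at hprd
    · exact h
  -- last visit of the identity
  obtain ⟨s', hs'ℓ, hs'1, hs'max⟩ : ∃ s' < ℓ, prd P y i x s' = 1 ∧
      ∀ t, s' < t → t ≤ ℓ → prd P y i x t ≠ 1 := by
    have hne : ((Finset.range ℓ).filter (fun t => prd P y i x t = 1)).Nonempty :=
      ⟨0, by simp [hℓ]⟩
    refine ⟨((Finset.range ℓ).filter (fun t => prd P y i x t = 1)).max' hne, ?_, ?_, ?_⟩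
    · have := Finset.max'_mem _ hne
      rw [Finset.mem_filter, Finset.mem_range] at this
      exact this.1
    · have := Finset.max'_mem _ hne
      rw [Finset.mem_filter, Finset.mem_range] at this
      exact this.2
    · intro t ht htℓ h1
      rcases Nat.lt_or_ge t ℓ with h | h
      · have := Finset.le_max' ((Finset.range ℓ).filter (fun t => prd P y i x t = 1)) t
          (by rw [Finset.mem_filter, Finset.mem_range]; exact ⟨h, h1⟩)
        omega
      · have : t = ℓ := le_antisymm htℓ h
        exact hprd (this ▸ h1)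
  -- the step s' is a letter
  rcases hst : P (i + s') with c | m
  · exfalso
    refine hs'max (s' + 1) (by omega) (by omega) ?_
    rw [prd_succ, hst, hs'1]
    simp [eg]
  have hδ : prd P y i x (s' + 1) = eg y (Sum.inr m) (pos P y i x s') := by
    rw [prd_succ, hst, hs'1, mul_one]
  have hδ1 : eg y (Sum.inr m) (pos P y i x s') ≠ 1 := by
    rw [← hδ]; exact hs'max _ (by omega) (by omega)
  have hmin' : ∀ a b, a ≤ ℓ → b ≤ ℓ → b - a < ℓ → a - b < ℓ → pos P y i x a = pos P y i x b →
      prd P y i x a = prd P y i x b := by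
    intro a b ha hb h1 h2 h3
    rcases le_total a b with h | h
    · exact hmin a b h hb h1 h3
    · exact (hmin b a h ha h2 h3.symm).symm
  -- all uses of the edge
  have claim : ∀ t < ℓ, ∀ m', P (i + t) = Sum.inr m' →
      ed y m' (pos P y i x t) = ed y m (pos P y i x s') →
      (m' = m ∧ pos P y i x t = pos P y i x s' ∧ prd P y i x t = 1) ∨
      (prd P y i x (t + 1) = 1 ∧ prd P y i x t = eg y (Sum.inr m) (pos P y i x s')) := by
    intro t ht m' hm' he
    obtain ⟨j', σ'⟩ := m'
    obtain ⟨j, σ⟩ := m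
    have hj : j' = j := by
      have := congrArg Prod.fst he
      simpa [ed] using this
    subst hj
    by_cases hσ : σ' = σ
    · subst hσ
      have hp : pos P y i x t = pos P y i x s' := same_dir he
      left
      refine ⟨rfl, hp, ?_⟩
      rw [hmin' t s' ht.le hs'ℓ.le (by omega) (by omega) hp, hs'1]
    · right
      obtain ⟨h1, h2⟩ := opp_dir hσ he
      -- pos t = pos (s'+1), pos (t+1) = pos s'
      have e1 : pos P y i x t = pos P y i x (s' + 1) := by
        rw [pos_succ, hst]; exact h1
      have e2 : pos P y i x (t + 1) = pos P y i x s' := by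
        rw [pos_succ, hm']; exact h2
      have hneg : eg y (Sum.inr (j', σ')) (pos P y i x t) =
          (eg y (Sum.inr (j', σ)) (pos P y i x s'))⁻¹ := by
        rw [eg_inr, eg_inr, he]
        cases σ <;> cases σ' <;> simp_all
      have hstep : prd P y i x (t + 1) =
          (eg y (Sum.inr (j', σ)) (pos P y i x s'))⁻¹ * prd P y i x t := by
        rw [prd_succ, hm', hneg]
      have hts : t ≠ s' := by
        intro h
        subst h
        rw [hst] at hm'
        have := Sum.inr.inj hm'
        simp only [Prod.mk.injEq, true_and] at this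
        exact hσ this.symm
      by_cases hcase : t - (s' + 1) < ℓ ∧ (s' + 1) - t < ℓ
      · have h3 : prd P y i x t = prd P y i x (s' + 1) :=
          hmin' t (s' + 1) ht.le (by omega) (by omega) (by omega) e1
        rw [hδ] at h3
        refine ⟨?_, h3⟩
        rw [hstep, h3]; simp
      · have h3 : prd P y i x (t + 1) = prd P y i x s' :=
          hmin' (t + 1) s' (by omega) hs'ℓ.le (by omega) (by omega) e2
        rw [hs'1] at h3
        refine ⟨h3, ?_⟩
        rw [hstep] at h3
        exact (inv_mul_eq_one.1 h3).symm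
  -- first use
  have hex : ∃ t, t < ℓ ∧ ∃ m', P (i + t) = Sum.inr m' ∧
      ed y m' (pos P y i x t) = ed y m (pos P y i x s') := ⟨s', hs'ℓ, m, hst, rfl⟩
  obtain ⟨hsℓ, m', hm', he⟩ := Nat.find_spec hex
  have hsmin := fun t => Nat.find_min hex (m := t)
  set s := Nat.find hex with hs
  have hnot : ¬ Uses P y i x s (ed y m (pos P y i x s')) := by
    rintro ⟨k, hk, m₂, h1, h2⟩
    exact hsmin k hk ⟨by omega, m₂, h1, h2⟩
  rcases claim s hsℓ m' hm' he with ⟨hmm, hp, -⟩ | ⟨-, hbad⟩
  · subst hmm
    have hE : pos P y i x (s' + 1) = lp y m' (pos P y i x s) := by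
      rw [pos_succ, hst, hp]; rfl
    have hadd : i + (s' + 1) = i + s' + 1 := by omega
    have hℓ2 : (s' + 1) + (ℓ - s' - 1) = ℓ := by omega
    refine ⟨s, s', m', hsℓ, hs'ℓ, hst, hm', ?_, ?_, ?_⟩
    · rw [hp]; exact hnot
    · rintro ⟨k, hk, m₂, h1, h2⟩
      rw [← hE, ← hadd, ← pos_add, he] at h2
      rw [← hadd, add_assoc] at h1
      rcases claim (s' + 1 + k) (by omega) m₂ h1 h2 with ⟨-, -, h3⟩ | ⟨h3, -⟩
      · exact hs'max _ (by omega) (by omega) h3
      · exact hs'max _ (by omega) (by omega) h3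
    · rw [← hE, ← hadd, ← pos_add, hℓ2, hclosed]
  · exfalso
    have h1 := expo_prd s hnot
    rw [hbad] at h1
    exact expo_eg h1

/-- there is a coincidence on the path of `L` steps from `x`: the same position at two times, a
non-trivial product between them and no edge of `K` used between them -/
def Co (P : ℕ → Stp q n) (K : Finset (Fin q × Fin n)) (y : World q n) (x : Fin n) (L : ℕ) : Prop :=
  ∃ a b, a ≤ b ∧ b ≤ L ∧ pos P y 0 x a = pos P y 0 x b ∧ prd P y 0 x a ≠ prd P y 0 x b ∧
    ∀ t, a ≤ t → t < b → ∀ m, P t = Sum.inr m → ed y m (pos P y 0 x t) ∉ K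

/-- structure of a coincidence of minimal length -/
theorem Co.struct {P : ℕ → Stp q n} {K : Finset (Fin q × Fin n)} {y : World q n} {x : Fin n} {L : ℕ}
    (h : Co P K y x L) : ∃ a < L, ∃ s < L, ∃ s' < L, ∃ b < L, ∃ m, P s' = Sum.inr m ∧
      SwEv P K a (pos P y 0 x a) (s - a) m (s' + 1) (b - s') (pos P y 0 x a) y := by
  classical
  -- minimal length
  have hex : ∃ ℓ, ∃ a b, a ≤ b ∧ b ≤ L ∧ pos P y 0 x a = pos P y 0 x b ∧
      prd P y 0 x a ≠ prd P y 0 x b ∧
      (∀ t, a ≤ t → t < b → ∀ m, P t = Sum.inr m → ed y m (pos P y 0 x t) ∉ K) ∧ b - a = ℓ := by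
    obtain ⟨a, b, h1, h2, h3, h4, h5⟩ := h
    exact ⟨b - a, a, b, h1, h2, h3, h4, h5, rfl⟩
  obtain ⟨a, b, h1, h2, h3, h4, h5, h6⟩ := Nat.find_spec hex
  have hfm := fun ℓ => Nat.find_min hex (m := ℓ)
  set ℓ := Nat.find hex with hℓ
  have hab : a < b := by
    rcases Nat.eq_or_lt_of_le h1 with h | h
    · subst h; exact absurd rfl h4
    · exact h
  have hadd : ∀ t, pos P y a (pos P y 0 x a) t = pos P y 0 x (a + t) := by
    intro t
    rw [pos_add, zero_add]
  have hpadd : ∀ t, prd P y 0 x (a + t) = prd P y a (pos P y 0 x a) t * prd P y 0 x a := by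
    intro t
    rw [prd_add, zero_add]
  obtain ⟨s, s', m, c1, c2, c3, c4, c5, c6, c7⟩ :=
    min_coinc (P := P) (y := y) (i := a) (x := pos P y 0 x a) (ℓ := ℓ)
      (by rw [hadd, ← h6, Nat.add_sub_cancel' h1, h3])
      (by
        intro h
        apply h4
        have := hpadd ℓ
        rw [h, one_mul, ← h6, Nat.add_sub_cancel' h1] at this
        exact this.symm)
      (by
        intro c d hcd hdℓ hlt hpos
        by_contra hne
        refine hfm (d - c) hlt ⟨a + c, a + d, by omega, by omega, ?_, ?_, ?_, by omega⟩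
        · rw [← hadd, ← hadd, hpos]
        · rw [hpadd, hpadd]
          intro h
          exact hne (mul_right_cancel h)
        · intro t ht1 ht2 m' hm'
          exact h5 t (by omega) (by omega) m' hm')
  refine ⟨a, by omega, a + s, by omega, a + s', by omega, b - 1, by omega, m, c3, ?_⟩
  have e1 : a + s - a = s := by omega
  have e2 : b - 1 - (a + s') = ℓ - s' - 1 := by omega
  rw [e1, e2]
  refine ⟨?_, c5, c6, c7⟩
  rw [hadd]
  exact h5 (a + s) (by omega) (by omega) m c4

open Classical in
/-- **coincidence lemma** -/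
theorem coinc_lemma (P : ℕ → Stp q n) (K : Finset (Fin q × Fin n)) (y0 : World q n) (L : ℕ) :
    ((Om K y0 ×ˢ (Finset.univ : Finset (Fin n))).filter (fun w => Co P K w.1 w.2 L)).card *
      (n - (K.card + 2 * L + 1)) ≤ L ^ 4 * ((Om K y0).card * n) := by
  classical
  set Ω := Om K y0
  set D := n - (K.card + 2 * L + 1)
  -- the event of a quadruple
  let F : (Fin L × Fin L) × (Fin L × Fin L) → Finset (World q n × Fin n) := fun z =>
    (Ω ×ˢ (Finset.univ : Finset (Fin n))).filter (fun w => ∃ m, P z.2.1 = Sum.inr m ∧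
      SwEv P K z.1.1 (pos P w.1 0 w.2 z.1.1) (z.1.2 - z.1.1) m (z.2.1 + 1) (z.2.2 - z.2.1)
        (pos P w.1 0 w.2 z.1.1) w.1)
  have hsub : (Ω ×ˢ (Finset.univ : Finset (Fin n))).filter (fun w => Co P K w.1 w.2 L) ⊆
      Finset.univ.biUnion F := by
    rintro ⟨y, x⟩ hw
    rw [Finset.mem_filter] at hw
    obtain ⟨hw, hco⟩ := hw
    obtain ⟨a, ha, s, hs, s', hs', b, hb, m, hm, hev⟩ := hco.struct
    rw [Finset.mem_biUnion]
    refine ⟨((⟨a, ha⟩, ⟨s, hs⟩), (⟨s', hs'⟩, ⟨b, hb⟩)), Finset.mem_univ _, ?_⟩
    rw [Finset.mem_filter]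
    exact ⟨hw, m, hm, hev⟩
  have hF : ∀ z, (F z).card * D ≤ Ω.card * n := by
    rintro ⟨⟨a, s⟩, ⟨s', b⟩⟩
    rcases hst : P s' with c | m
    · have : F ((a, s), (s', b)) = ∅ := by
        rw [Finset.filter_eq_empty_iff]
        rintro w - ⟨m, hm, -⟩
        simp only [hst] at hm
        cases hm
      rw [this]; simp
    · let G : Fin n → Finset (World q n) := fun z =>
        Ω.filter (SwEv P K a z (s - a) m (s' + 1) (b - s') z)
      have hG : ∀ z, (G z).card * D ≤ Ω.card := by
        intro z
        refine le_trans (Nat.mul_le_mul le_rfl ?_)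
          (swap_lemma P K y0 a z (s - a) m (s' + 1) (b - s') z)
        have := s.2; have := b.2
        omega
      have hcard : (F ((a, s), (s', b))).card ≤ ∑ z : Fin n, (G z).card := by
        rw [← Finset.card_sigma]
        refine Finset.card_le_card_of_injOn
          (fun w => (⟨pos P w.1 0 w.2 a, w.1⟩ : Σ _ : Fin n, World q n)) ?_ ?_
        · rintro ⟨y, x⟩ hw
          rw [Finset.mem_coe, Finset.mem_filter] at hw
          obtain ⟨hw, m', hm', hev⟩ := hw
          simp only [hst] at hm'
          have := Sum.inr.inj hm'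
          subst this
          rw [Finset.mem_coe, Finset.mem_sigma]
          refine ⟨Finset.mem_univ _, ?_⟩
          rw [Finset.mem_filter]
          exact ⟨(Finset.mem_product.1 hw).1, hev⟩
        · rintro ⟨y, x⟩ - ⟨y', x'⟩ - heq
          simp only [Sigma.mk.injEq] at heq
          obtain ⟨h1, h2⟩ := heq
          have h2 := eq_of_heq h2
          subst h2
          have := pos_inj P y 0 a h1
          subst this
          rfl
      calc (F ((a, s), (s', b))).card * D ≤ (∑ z : Fin n, (G z).card) * D :=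
            Nat.mul_le_mul hcard le_rfl
        _ = ∑ z : Fin n, (G z).card * D := Finset.sum_mul _ _ _
        _ ≤ ∑ _z : Fin n, Ω.card := Finset.sum_le_sum fun z _ => hG z
        _ = Ω.card * n := by simp [mul_comm]
  calc ((Ω ×ˢ (Finset.univ : Finset (Fin n))).filter (fun w => Co P K w.1 w.2 L)).card * D
      ≤ (Finset.univ.biUnion F).card * D := Nat.mul_le_mul (Finset.card_le_card hsub) le_rfl
    _ ≤ (∑ z, (F z).card) * D := Nat.mul_le_mul Finset.card_biUnion_le le_rfl
    _ = ∑ z, (F z).card * D := Finset.sum_mul _ _ _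
    _ ≤ ∑ _z : (Fin L × Fin L) × (Fin L × Fin L), Ω.card * n := Finset.sum_le_sum fun z _ => hF z
    _ = L ^ 4 * (Ω.card * n) := by
        rw [Finset.sum_const, Finset.card_univ, Fintype.card_prod, Fintype.card_prod,
          Fintype.card_fin, smul_eq_mul]
        ring

end Pool.Agent.Helper4.FS
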