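import Pool.Agent.Helper4.FS.Pal
import Pool.Agent.Helper35.FS.Cut

/-! Project FS (MP_75608d_al), closing lemma: the one-token estimate. -/

namespace Pool.Agent.Helper4.FS

open Equiv

variable {q n : ℕ}

/-! ### the bridge from `Cut` (products with the newest letter on the right) -/

/-- the anti-automorphism of the free group which fixes the generators -/
noncomputable def anti : FreeGroup (Fin q) →* (FreeGroup (Fin q))ᵐᵒᵖ :=
  FreeGroup.lift (fun a => MulOpposite.op (FreeGroup.of a))

lemma anti_sg (l : Fin q × Bool) : anti (sg l) = MulOpposite.op (sg l) := by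
  obtain ⟨j, σ⟩ := l
  cases σ
  · have : sg (j, false) = (FreeGroup.of j : FreeGroup (Fin q))⁻¹ := rfl
    rw [this, map_inv]
    simp [anti]
  · have : sg (j, true) = (FreeGroup.of j : FreeGroup (Fin q)) := rfl
    rw [this]
    simp [anti]

lemma anti_HL (g : ℕ → Option (Lt q)) (t : ℕ) :
    anti (HL g t) = MulOpposite.op (Pool.Agent.Helper35.FS.hp g t) := by
  induction t with
  | zero => simp [HL, Pool.Agent.Helper35.FS.hp]
  | succ t ih =>
    have h1 : HL g (t + 1) = (match g t with | none => 1 | some m => sg m) * HL g t := rfl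
    have h2 : Pool.Agent.Helper35.FS.hp g (t + 1) =
      Pool.Agent.Helper35.FS.hp g t * Pool.Agent.Helper35.FS.ltr (g t) := rfl
    rw [h1, h2, map_mul, ih, MulOpposite.op_mul]
    congr 1
    rcases g t with _ | m
    · simp [Pool.Agent.Helper35.FS.ltr]
    · simp only [Pool.Agent.Helper35.FS.ltr]
      exact anti_sg m

lemma hp_of_HL {g : ℕ → Option (Lt q)} {s t : ℕ} (h : HL g s = HL g t) :
    Pool.Agent.Helper35.FS.hp g s = Pool.Agent.Helper35.FS.hp g t := by
  apply MulOpposite.op_injective
  rw [← anti_HL, ← anti_HL, h]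

theorem cutL_of_cut {g : ℕ → Option (Lt q)} {N i j : ℕ}
    (h : Pool.Agent.Helper35.FS.Cut g N i j) : CutL g N i j := by
  obtain ⟨h1, h2, h3, h4, h5, h6, h7⟩ := h
  refine ⟨h1, h2, h5, ?_, fun t ht he => (h6 t ht).1 (hp_of_HL he)⟩
  obtain ⟨m, hm⟩ := Option.ne_none_iff_exists'.1 h3
  obtain ⟨m', hm'⟩ := Option.ne_none_iff_exists'.1 h4
  refine ⟨m, m', hm, hm', ?_⟩
  intro h8
  apply h7 m m' hm hm'
  have h9 : sg m' = sg (m.1, !m.2) := by
    rw [← sg_inv]
    exact eq_inv_of_mul_eq_one_left h8
  have h10 : m' = (m.1, !m.2) := by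
    have := congrArg FreeGroup.toWord h9
    rw [toWord_sg, toWord_sg] at this
    simpa using this
  rw [h10]
  exact ⟨rfl, rfl⟩

/-! ### tests at fresh edges -/

/-- the edge of step `s` is fresh -/
def FrAt (P : ℕ → Stp q n) (y : World q n) (x : Fin n) (s : ℕ) : Prop :=
  ∀ m, P s = Sum.inr m → ¬ Uses P y 0 x s (ed y m (pos P y 0 x s))

/-- the steps of `C` have fresh edges with end points in the test sets -/
def EvC (P : ℕ → Stp q n) (C : Finset ℕ) (F : ℕ → Finset (Fin n)) (y : World q n) (x : Fin n) :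
    Prop := ∀ s ∈ C, pos P y 0 x (s + 1) ∈ F s ∧ FrAt P y x s

open Classical in
lemma test_step (P : ℕ → Stp q n) (C : Finset ℕ) (F : ℕ → Finset (Fin n)) (s : ℕ) (m : Lt q)
    (hm : P s = Sum.inr m) (hC : ∀ s' ∈ C, s' < s) :
    ((Finset.univ : Finset (World q n × Fin n)).filter
      (fun w => EvC P (insert s C) F w.1 w.2)).card * (n - (s + 1)) ≤
    (F s).card * ((Finset.univ : Finset (World q n × Fin n)).filter
      (fun w => EvC P C F w.1 w.2)).card := by
  classical
  set E := (Finset.univ : Finset (World q n × Fin n)).filter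
    (fun w => EvC P (insert s C) F w.1 w.2) with hE
  set E' := (Finset.univ : Finset (World q n × Fin n)).filter
    (fun w => EvC P C F w.1 w.2) with hE'
  let Bad : World q n × Fin n → Finset (Fin q × Fin n) := fun w =>
    usedSet P w.1 0 w.2 s ∪ {ed w.1 m (pos P w.1 0 w.2 s)}
  let U : World q n × Fin n → Finset (Fin n) := fun w =>
    Finset.univ.filter (fun u => (m.1, u) ∉ Bad w)
  have hUcard : ∀ w, n - (s + 1) ≤ (U w).card := by
    intro w
    have h1 : (Finset.univ.filter (fun u : Fin n => (m.1, u) ∈ Bad w)).card ≤ (Bad w).card := by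
      refine Finset.card_le_card_of_injOn (fun u => (m.1, u)) ?_ ?_
      · intro u hu
        simpa using hu
      · intro u _ v _ h
        simpa using h
    have h2 : (Bad w).card ≤ s + 1 :=
      (Finset.card_union_le _ _).trans (Nat.add_le_add (card_usedSet_le _ _ _ _ _) (by simp))
    have h3 := Finset.card_filter_add_card_filter_not (s := (Finset.univ : Finset (Fin n)))
      (fun u : Fin n => (m.1, u) ∈ Bad w)
    simp only [Finset.card_univ, Fintype.card_fin] at h3
    have h4 : (U w).card = (Finset.univ.filter (fun u : Fin n => ¬ (m.1, u) ∈ Bad w)).card := rfl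
    omega
  have hprops : ∀ w ∈ E, ∀ u ∈ U w,
      ¬ Uses P w.1 0 w.2 s (m.1, (ed w.1 m (pos P w.1 0 w.2 s)).2) ∧
      ¬ Uses P w.1 0 w.2 s (m.1, u) := by
    intro w hw u hu
    simp only [hE, Finset.mem_filter] at hw
    simp only [U, Bad, Finset.mem_filter, Finset.mem_univ, true_and, Finset.mem_union,
      Finset.mem_singleton, not_or, mem_usedSet] at hu
    refine ⟨?_, hu.1⟩
    have := (hw.2 s (Finset.mem_insert_self _ _)).2 m hm
    exact this
  have key : (E.sigma U).card ≤ (F s ×ˢ E').card := by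
    refine Finset.card_le_card_of_injOn
      (fun wu : (Σ _ : World q n × Fin n, Fin n) => (pos P wu.1.1 0 wu.1.2 (s + 1),
        (sw wu.1.1 m.1 (ed wu.1.1 m (pos P wu.1.1 0 wu.1.2 s)).2 wu.2, wu.1.2))) ?_ ?_
    · rintro ⟨⟨y, x⟩, u⟩ h
      rw [Finset.mem_coe, Finset.mem_sigma] at h
      obtain ⟨hw, hu⟩ := h
      obtain ⟨h1, h2⟩ := hprops _ hw _ hu
      simp only at h1 h2
      simp only [hE, Finset.mem_filter] at hw
      rw [Finset.mem_coe, Finset.mem_product]
      refine ⟨(hw.2 s (Finset.mem_insert_self _ _)).1, ?_⟩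
      rw [hE', Finset.mem_filter]
      refine ⟨Finset.mem_univ _, ?_⟩
      intro s' hs'
      have hlt := hC s' hs'
      obtain ⟨g1, g2⟩ := hw.2 s' (Finset.mem_insert_of_mem hs')
      have p1 : ∀ t ≤ s, pos P (sw y m.1 (ed y m (pos P y 0 x s)).2 u) 0 x t = pos P y 0 x t :=
        fun t ht => pos_sw t (fun h => h1 (h.mono ht)) (fun h => h2 (h.mono ht))
      refine ⟨?_, ?_⟩
      · show pos P (sw y m.1 (ed y m (pos P y 0 x s)).2 u) 0 x (s' + 1) ∈ F s'
        rw [p1 (s' + 1) (by omega)]; exact g1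
      · intro m₂ hm₂
        show ¬ Uses P (sw y m.1 (ed y m (pos P y 0 x s)).2 u) 0 x s'
          (ed (sw y m.1 (ed y m (pos P y 0 x s)).2 u) m₂
            (pos P (sw y m.1 (ed y m (pos P y 0 x s)).2 u) 0 x s'))
        rw [p1 s' hlt.le, uses_sw s' (fun h => h1 (h.mono hlt.le)) (fun h => h2 (h.mono hlt.le)),
          (lp_sw (fun h => h1 ⟨s', hlt, m₂, by rw [zero_add]; exact hm₂, h⟩)
            (fun h => h2 ⟨s', hlt, m₂, by rw [zero_add]; exact hm₂, h⟩)).2]
        exact g2 m₂ hm₂
    · rintro ⟨⟨y, x⟩, u⟩ h ⟨⟨y', x'⟩, u'⟩ h' heq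
      rw [Finset.mem_coe, Finset.mem_sigma] at h h'
      obtain ⟨hw, hu⟩ := h
      obtain ⟨hw', hu'⟩ := h'
      obtain ⟨h1, h2⟩ := hprops _ hw _ hu
      obtain ⟨h1', h2'⟩ := hprops _ hw' _ hu'
      simp only [Prod.mk.injEq] at heq h1 h2 h1' h2'
      obtain ⟨he, hY, hx⟩ := heq
      subst hx
      set r := (ed y m (pos P y 0 x s)).2 with hr
      set r' := (ed y' m (pos P y' 0 x s)).2 with hr'
      set Y := sw y m.1 r u with hYdef
      have p1 : pos P Y 0 x s = pos P y 0 x s := pos_sw s h1 h2
      have p1' : pos P Y 0 x s = pos P y' 0 x s := by rw [hY]; exact pos_sw s h1' h2'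
      have hp : pos P y 0 x s = pos P y' 0 x s := p1 ▸ p1'
      rw [pos_succ, pos_succ, zero_add, hm, ← hp] at he
      rw [← hp] at hr'
      have he : lp y m (pos P y 0 x s) = lp y' m (pos P y 0 x s) := he
      set p := pos P y 0 x s with hpdef
      obtain ⟨j, σ⟩ := m
      cases σ
      · have hrr : r = lp y (j, false) p := by simp [hr, ed, lp]
        have hrr' : r' = lp y' (j, false) p := by simp [hr', ed, lp]
        have hrr2 : r = r' := by rw [hrr, hrr', he]
        have hYp : (Y j)⁻¹ p = u := by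
          have : y j r = p := by rw [hrr]; simp [lp]
          rw [Perm.inv_eq_iff_eq]
          simp [hYdef, sw, this]
        have hYp' : (Y j)⁻¹ p = u' := by
          have : y' j r' = p := by rw [hrr']; simp [lp]
          rw [Perm.inv_eq_iff_eq, hY]
          simp [sw, this]
        have huu : u = u' := hYp ▸ hYp'
        have : y = y' := by
          have e1 := sw_sw y j r u
          have e2 := sw_sw y' j r' u'
          rw [← e1, ← e2]
          change sw Y j r u = sw (sw y' j r' u') j r' u'
          rw [hY, hrr2, huu]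
        subst this
        subst huu
        rfl
      · have hrr : r = p := by simp [hr, ed]
        have hrr' : r' = p := by simp [hr', ed]
        have hrr2 : r = r' := by rw [hrr, hrr']
        have hYp : Y j u = lp y (j, true) p := by
          simp [hYdef, sw, lp, hrr]
        have hYp' : Y j u' = lp y' (j, true) p := by
          rw [hY]; simp [sw, lp, hrr']
        have huu : u = u' := (Y j).injective (hYp.trans (he.trans hYp'.symm))
        have : y = y' := by
          have e1 := sw_sw y j r u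
          have e2 := sw_sw y' j r' u'
          rw [← e1, ← e2]
          change sw Y j r u = sw (sw y' j r' u') j r' u'
          rw [hY, hrr2, huu]
        subst this
        subst huu
        rfl
  calc E.card * (n - (s + 1)) = ∑ _w ∈ E, (n - (s + 1)) := by simp
    _ ≤ ∑ w ∈ E, (U w).card := Finset.sum_le_sum fun w _ => hUcard w
    _ = (E.sigma U).card := by rw [Finset.card_sigma]
    _ ≤ (F s ×ˢ E').card := key
    _ = (F s).card * E'.card := Finset.card_product _ _

open Classical in
/-- **tests at fresh edges are independent** -/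
theorem tests_card (P : ℕ → Stp q n) (F : ℕ → Finset (Fin n)) (L : ℕ) (C : Finset ℕ) :
    (∀ s ∈ C, s < L ∧ ∃ m, P s = Sum.inr m) →
    ((Finset.univ : Finset (World q n × Fin n)).filter
      (fun w => EvC P C F w.1 w.2)).card * (n - L) ^ C.card ≤
    (∏ s ∈ C, (F s).card) * (Fintype.card (World q n) * n) := by
  classical
  induction C using Finset.induction_on_max with
  | empty =>
    intro _
    have : ((Finset.univ : Finset (World q n × Fin n)).filter
      (fun w => EvC P ∅ F w.1 w.2)).card ≤ Fintype.card (World q n) * n := by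
      refine (Finset.card_filter_le _ _).trans ?_
      rw [Finset.card_univ, Fintype.card_prod, Fintype.card_fin]
    simpa using this
  | insert s C hmax ih =>
    intro h
    have hsC : s ∉ C := fun hs => lt_irrefl _ (hmax s hs)
    obtain ⟨hsL, m, hm⟩ := h s (Finset.mem_insert_self _ _)
    have ih' := ih (fun s' hs' => h s' (Finset.mem_insert_of_mem hs'))
    have hst := test_step P C F s m hm hmax
    rw [Finset.card_insert_of_notMem hsC, Finset.prod_insert hsC, pow_succ]
    set e := ((Finset.univ : Finset (World q n × Fin n)).filter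
      (fun w => EvC P (insert s C) F w.1 w.2)).card
    set e' := ((Finset.univ : Finset (World q n × Fin n)).filter
      (fun w => EvC P C F w.1 w.2)).card
    calc e * ((n - L) ^ C.card * (n - L)) = (e * (n - L)) * (n - L) ^ C.card := by ring
      _ ≤ (e * (n - (s + 1))) * (n - L) ^ C.card := by
          refine Nat.mul_le_mul (Nat.mul_le_mul le_rfl (by omega)) le_rfl
      _ ≤ ((F s).card * e') * (n - L) ^ C.card := Nat.mul_le_mul hst le_rfl
      _ = (F s).card * (e' * (n - L) ^ C.card) := by ring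
      _ ≤ (F s).card * ((∏ s ∈ C, (F s).card) * (Fintype.card (World q n) * n)) :=
          Nat.mul_le_mul le_rfl ih'
      _ = _ := by ring

/-! ### the one-token estimate -/

/-- without coincidences the arrival edge of a cut is fresh -/
lemma fresh_of_cut {a : ℕ → Perm (Fin n)} {g : ℕ → Option (Lt q)} {y : World q n} {x : Fin n}
    {N i j : ℕ} (hco : ¬ Co (prog a g) ∅ y x (2 * N)) (hcut : CutL g N i j) :
    FrAt (prog a g) y x (2 * i + 1) := by
  have hij := hcut.lt
  have hjN := hcut.ltN
  have honly := hcut.only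
  have hsame : ∀ s t, s ≤ 2 * N → t ≤ 2 * N → pos (prog a g) y 0 x s = pos (prog a g) y 0 x t →
      prd (prog a g) y 0 x s = prd (prog a g) y 0 x t := by
    intro s t hs ht hp
    by_contra hne
    rcases le_total s t with h | h
    · exact hco ⟨s, t, h, ht, hp, hne, fun _ _ _ _ _ => by simp⟩
    · exact hco ⟨t, s, h, hs, hp.symm, Ne.symm hne, fun _ _ _ _ _ => by simp⟩
  rintro ⟨k, σ⟩ hm ⟨t, ht, ⟨k', σ'⟩, hm', he⟩
  rw [zero_add] at hm'
  have hk : k' = k := by
    have := congrArg Prod.fst he
    simpa [ed] using this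
  subst hk
  -- the step t is odd
  have hodd : t % 2 = 1 := by
    by_contra h
    have : t % 2 = 0 := by omega
    rw [prog, if_pos this] at hm'
    cases hm'
  obtain ⟨s, rfl⟩ : ∃ s, t = 2 * s + 1 := ⟨t / 2, by omega⟩
  by_cases hσ : σ' = σ
  · subst hσ
    have hp := same_dir he
    have hp2 : pos (prog a g) y 0 x (2 * s + 1 + 1) = pos (prog a g) y 0 x (2 * i + 1 + 1) := by
      have e1 := pos_succ (prog a g) y 0 x (2 * s + 1)
      have e2 := pos_succ (prog a g) y 0 x (2 * i + 1)
      rw [zero_add] at e1 e2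
      rw [e1, e2, hm, hm', hp]
    have h1 := hsame _ _ (by omega) (by omega) hp2
    have h2 := congrArg proj h1
    rw [show 2 * s + 1 + 1 = 2 * (s + 1) by ring, show 2 * i + 1 + 1 = 2 * (i + 1) by ring,
      proj_prd, proj_prd] at h2
    have := honly (s + 1) (by omega) h2
    omega
  · obtain ⟨h1, -⟩ := opp_dir hσ he
    have hp2 : pos (prog a g) y 0 x (2 * s + 1) = pos (prog a g) y 0 x (2 * i + 1 + 1) := by
      rw [pos_succ (t := 2 * i + 1), zero_add, hm]; exact h1
    have h3 := hsame _ _ (by omega) (by omega) hp2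
    have h2 := congrArg proj h3
    rw [prd_even_step, show 2 * i + 1 + 1 = 2 * (i + 1) by ring, proj_prd, proj_prd] at h2
    have := honly s (by omega) h2
    omega

/-- product of the constants `a (i+1), …, a (i+k)` -/
def cst (a : ℕ → Perm (Fin n)) (i : ℕ) : ℕ → Perm (Fin n)
  | 0 => 1
  | k + 1 => a (i + 1 + k) * cst a i k

lemma pos_lazy (a : ℕ → Perm (Fin n)) (g : ℕ → Option (Lt q)) (y : World q n) (x : Fin n) (i k : ℕ)
    (h : ∀ t, i < t → t < i + 1 + k → g t = none) :
    pos (prog a g) y 0 x (2 * (i + 1 + k) + 1) =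
      cst a i (k + 1) (pos (prog a g) y 0 x (2 * i + 2)) := by
  induction k with
  | zero =>
    rw [add_zero, pos_even_step]
    simp [cst, show 2 * (i + 1) = 2 * i + 2 by ring]
  | succ k ih =>
    have h1 := ih (fun t h1 h2 => h t h1 (by omega))
    rw [pos_even_step, show 2 * (i + 1 + (k + 1)) = 2 * (i + 1 + k) + 2 by ring,
      pos_odd_none (h (i + 1 + k) (by omega) (by omega)), h1]
    simp only [cst, Perm.mul_apply]

/-- the places at which the constants of the cut `(i,j)` agree -/
def agree (a b : ℕ → Perm (Fin n)) (i j : ℕ) : Finset (Fin n) :=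
  Finset.univ.filter (fun v => cst a i (j - i) v = cst b i (j - i) v)

open Classical in
/-- **one token, counting form** -/
theorem one_card (a b : ℕ → Perm (Fin n)) (g : ℕ → Option (Lt q)) (N : ℕ) (C : Finset ℕ)
    (jj : ℕ → ℕ) (hC : ∀ i ∈ C, CutL g N i (jj i)) :
    ((Finset.univ : Finset (World q n × Fin n)).filter (fun w =>
      pos (prog a g) w.1 0 w.2 (2 * N) = pos (prog b g) w.1 0 w.2 (2 * N))).card *
      (n - (8 * N + 1)) ≤
    ((Finset.univ : Finset (World q n × Fin n)).filter (fun w =>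
      EvC (prog a g) (C.image (fun i => 2 * i + 1))
        (fun s => agree a b (s / 2) (jj (s / 2))) w.1 w.2)).card * (n - (8 * N + 1)) +
      ((4 * N) ^ 4 + (2 * N) ^ 4) * (Fintype.card (World q n) * n) := by
  classical
  have h1 := closed_cut a b g N
  have h2 := coinc_lemma (prog a g) (∅ : Finset (Fin q × Fin n)) (fun _ => 1) (2 * N)
  have hOm : (Om (∅ : Finset (Fin q × Fin n)) (fun _ => 1) : Finset (World q n)) =
      Finset.univ := by
    ext y; simp [mem_Om]
  rw [hOm] at h2
  simp only [Finset.card_empty, zero_add, Finset.card_univ] at h2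
  set X := (Finset.univ : Finset (World q n × Fin n)).filter (fun w =>
      pos (prog a g) w.1 0 w.2 (2 * N) = pos (prog b g) w.1 0 w.2 (2 * N)) with hX
  set X1 := (Finset.univ : Finset (World q n × Fin n)).filter (fun w =>
      pos (prog a g) w.1 0 w.2 (2 * N) = pos (prog b g) w.1 0 w.2 (2 * N) ∧
      ¬ ∀ i j, CutL g N i j →
        pos (prog a g) w.1 0 w.2 (2 * i + 2) = pos (prog b g) w.1 0 w.2 (2 * i + 2) ∧
        pos (prog a g) w.1 0 w.2 (2 * j + 1) = pos (prog b g) w.1 0 w.2 (2 * j + 1)) with hX1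
  set X2 := ((Finset.univ : Finset (World q n)) ×ˢ (Finset.univ : Finset (Fin n))).filter
    (fun w => Co (prog a g) ∅ w.1 w.2 (2 * N)) with hX2
  set X3 := (Finset.univ : Finset (World q n × Fin n)).filter (fun w =>
      EvC (prog a g) (C.image (fun i => 2 * i + 1))
        (fun s => agree a b (s / 2) (jj (s / 2))) w.1 w.2) with hX3
  have hsub : X ⊆ X3 ∪ (X1 ∪ X2) := by
    rintro ⟨y, x⟩ hw
    rw [hX, Finset.mem_filter] at hw
    simp only at hw
    by_cases hA : (y, x) ∈ X1 ∪ X2
    · exact Finset.mem_union_right _ hA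
    · rw [Finset.mem_union, not_or, hX1, hX2, Finset.mem_filter, Finset.mem_filter] at hA
      have hall := not_and.1 hA.1 (Finset.mem_univ _)
      have hco := not_and.1 hA.2 (by simp)
      simp only at hall hco
      have hall := not_not.1 (not_and.1 hall hw.2)
      refine Finset.mem_union_left _ ?_
      rw [hX3, Finset.mem_filter]
      refine ⟨Finset.mem_univ _, ?_⟩
      intro s hs
      obtain ⟨i, hi, rfl⟩ := Finset.mem_image.1 hs
      have hcut := hC i hi
      have hdiv : (2 * i + 1) / 2 = i := by omega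
      refine ⟨?_, fresh_of_cut hco hcut⟩
      simp only [hdiv]
      show pos (prog a g) y 0 x (2 * i + 2) ∈ agree a b i (jj i)
      obtain ⟨e1, e2⟩ := hall i (jj i) hcut
      have hlt := hcut.lt
      have hk : i + 1 + (jj i - i - 1) = jj i := by omega
      have hk2 : jj i - i - 1 + 1 = jj i - i := by omega
      have l1 := pos_lazy a g y x i (jj i - i - 1)
        (fun t ht1 ht2 => hcut.lazy t ht1 (by omega))
      have l2 := pos_lazy b g y x i (jj i - i - 1)
        (fun t ht1 ht2 => hcut.lazy t ht1 (by omega))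
      rw [hk, hk2] at l1 l2
      rw [agree, Finset.mem_filter]
      refine ⟨Finset.mem_univ _, ?_⟩
      rw [← l1, e2, l2, e1]
  have hcard := Finset.card_le_card hsub
  have hc1 := (Finset.card_union_le X3 (X1 ∪ X2))
  have hc2 := (Finset.card_union_le X1 X2)
  have hX2' : X2.card * (n - (8 * N + 1)) ≤ (2 * N) ^ 4 * (Fintype.card (World q n) * n) := by
    refine le_trans (Nat.mul_le_mul le_rfl (by omega)) h2
  calc X.card * (n - (8 * N + 1)) ≤ (X3.card + (X1.card + X2.card)) * (n - (8 * N + 1)) :=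
        Nat.mul_le_mul (by omega) le_rfl
    _ = X3.card * (n - (8 * N + 1)) + (X1.card * (n - (8 * N + 1)) +
        X2.card * (n - (8 * N + 1))) := by ring
    _ ≤ X3.card * (n - (8 * N + 1)) + ((4 * N) ^ 4 * (Fintype.card (World q n) * n) +
        (2 * N) ^ 4 * (Fintype.card (World q n) * n)) := by
        refine Nat.add_le_add le_rfl (Nat.add_le_add h1 hX2')
    _ = _ := by ring

open Classical in
/-- **ONE**: the closing probability of one token -/
theorem one_token (a b : ℕ → Perm (Fin n)) (g : ℕ → Option (Lt q)) (N : ℕ) (C : Finset ℕ)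
    (jj : ℕ → ℕ) (hC : ∀ i ∈ C, CutL g N i (jj i)) (hn : 8 * N + 1 < n) :
    (((Finset.univ : Finset (World q n × Fin n)).filter (fun w =>
      pos (prog a g) w.1 0 w.2 (2 * N) = pos (prog b g) w.1 0 w.2 (2 * N))).card : ℝ) /
      (Fintype.card (World q n) * n) ≤
    (∏ i ∈ C, ((agree a b i (jj i)).card : ℝ) / (n - 2 * N)) +
      ((4 * N : ℝ) ^ 4 + (2 * N) ^ 4) / (n - (8 * N + 1)) := by
  classical
  have h1 := one_card a b g N C jj hC
  have h2 := tests_card (prog a g) (fun s => agree a b (s / 2) (jj (s / 2))) (2 * N)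
    (C.image (fun i => 2 * i + 1)) (by
      intro s hs
      obtain ⟨i, hi, rfl⟩ := Finset.mem_image.1 hs
      have hcut := hC i hi
      have h3 := hcut.lt
      have h4 := hcut.ltN
      obtain ⟨m, m', hm, hm', -⟩ := hcut.ex
      exact ⟨by omega, m, prog_odd_some hm⟩)
  have hinj : Set.InjOn (fun i => 2 * i + 1) (C : Set ℕ) := by
    intro i _ j _ h
    simp only at h
    omega
  rw [Finset.card_image_of_injOn hinj, Finset.prod_image hinj] at h2
  have hpr : ∏ i ∈ C, (agree a b ((2 * i + 1) / 2) (jj ((2 * i + 1) / 2))).card =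
      ∏ i ∈ C, (agree a b i (jj i)).card := by
    refine Finset.prod_congr rfl fun i _ => ?_
    rw [show (2 * i + 1) / 2 = i by omega]
  rw [hpr] at h2
  set X := ((Finset.univ : Finset (World q n × Fin n)).filter (fun w =>
      pos (prog a g) w.1 0 w.2 (2 * N) = pos (prog b g) w.1 0 w.2 (2 * N))).card
  set X3 := ((Finset.univ : Finset (World q n × Fin n)).filter (fun w =>
      EvC (prog a g) (C.image (fun i => 2 * i + 1))
        (fun s => agree a b (s / 2) (jj (s / 2))) w.1 w.2)).card
  set W := Fintype.card (World q n)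
  have hWpos : (0 : ℝ) < W := by
    have : 0 < W := Fintype.card_pos
    exact_mod_cast this
  have hnpos : (0 : ℝ) < n := by
    have : 0 < n := by omega
    exact_mod_cast this
  have hD : ((n - (8 * N + 1) : ℕ) : ℝ) = (n : ℝ) - (8 * N + 1) := by
    rw [Nat.cast_sub (by omega)]
    push_cast
    ring
  have hDpos : (0 : ℝ) < (n : ℝ) - (8 * N + 1) := by
    rw [← hD]
    exact_mod_cast Nat.sub_pos_of_lt hn
  have hM : ((n - 2 * N : ℕ) : ℝ) = (n : ℝ) - 2 * N := by
    rw [Nat.cast_sub (by omega)]
    push_cast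
    ring
  have hMpos : (0 : ℝ) < (n : ℝ) - 2 * N := by
    rw [← hM]
    have : 0 < n - 2 * N := by omega
    exact_mod_cast this
  have g1 : (X : ℝ) * ((n : ℝ) - (8 * N + 1)) ≤ X3 * ((n : ℝ) - (8 * N + 1)) +
      ((4 * N : ℝ) ^ 4 + (2 * N) ^ 4) * (W * n) := by
    rw [← hD]
    exact_mod_cast h1
  have g2 : (X3 : ℝ) * ((n : ℝ) - 2 * N) ^ C.card ≤
      (∏ i ∈ C, ((agree a b i (jj i)).card : ℝ)) * (W * n) := by
    rw [← hM]
    exact_mod_cast h2
  rw [Finset.prod_div_distrib, Finset.prod_const, div_le_iff₀ (by positivity)]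
  have g3 : (X3 : ℝ) ≤ (∏ i ∈ C, ((agree a b i (jj i)).card : ℝ)) / ((n : ℝ) - 2 * N) ^ C.card *
      (W * n) := by
    rw [div_mul_eq_mul_div, le_div_iff₀ (by positivity)]
    exact g2
  have g4 : (X : ℝ) ≤ X3 + ((4 * N : ℝ) ^ 4 + (2 * N) ^ 4) / ((n : ℝ) - (8 * N + 1)) * (W * n) := by
    rw [div_mul_eq_mul_div, ← sub_le_iff_le_add', le_div_iff₀ hDpos]
    nlinarith [g1]
  calc (X : ℝ) ≤ X3 + ((4 * N : ℝ) ^ 4 + (2 * N) ^ 4) / ((n : ℝ) - (8 * N + 1)) * (W * n) := g4
    _ ≤ (∏ i ∈ C, ((agree a b i (jj i)).card : ℝ)) / ((n : ℝ) - 2 * N) ^ C.card * (W * n) +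
        ((4 * N : ℝ) ^ 4 + (2 * N) ^ 4) / ((n : ℝ) - (8 * N + 1)) * (W * n) := by linarith
    _ = _ := by ring

end Pool.Agent.Helper4.FS
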