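import Pool.Agent.Helper4.FS.Det

/-! Project FS (MP_75608d_al), closing lemma: the palindromic path. -/

namespace Pool.Agent.Helper4.FS

open Equiv

variable {q n : ℕ}

/-- the inverse step -/
def istp : Stp q n → Stp q n
  | Sum.inl c => Sum.inl c⁻¹
  | Sum.inr m => Sum.inr (m.1, !m.2)

lemma act_istp (y : World q n) (s : Stp q n) : act y (istp s) = (act y s)⁻¹ := by
  rcases s with c | ⟨j, σ⟩
  · rfl
  · cases σ <;> simp [istp, act, lp]

lemma eg_istp (y : World q n) (s : Stp q n) (p : Fin n) :
    eg y (istp s) (act y s p) = (eg y s p)⁻¹ := by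
  rcases s with c | ⟨j, σ⟩
  · simp [istp, eg]
  · cases σ <;> simp [istp, eg, act, lp, ed]

/-- up along the first `L` steps of `P`, then down along `P'` -/
def pal (P P' : ℕ → Stp q n) (L : ℕ) (k : ℕ) : Stp q n :=
  if k < L then istp (P (L - 1 - k)) else P' (k - L)

lemma pal_up {P P' : ℕ → Stp q n} {L : ℕ} {y : World q n} {x : Fin n} (k : ℕ) (hk : k ≤ L) :
    pos (pal P P' L) y 0 (pos P y 0 x L) k = pos P y 0 x (L - k) ∧
    prd (pal P P' L) y 0 (pos P y 0 x L) k = prd P y 0 x (L - k) * (prd P y 0 x L)⁻¹ := by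
  induction k with
  | zero => simp
  | succ k ih =>
    obtain ⟨h1, h2⟩ := ih (by omega)
    have hstep : pal P P' L (0 + k) = istp (P (L - 1 - k)) := by
      simp [pal, show k < L by omega]
    have e1 : L - k = (L - 1 - k) + 1 := by omega
    have e2 : L - (k + 1) = L - 1 - k := by omega
    rw [e1] at h1 h2
    rw [pos_succ, zero_add] at h1
    rw [prd_succ, zero_add] at h2
    constructor
    · rw [pos_succ, hstep, h1, act_istp, e2]
      simp
    · rw [prd_succ, hstep, h2, h1, eg_istp, e2]
      group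

lemma pal_down {P P' : ℕ → Stp q n} {L : ℕ} {y : World q n} {x : Fin n} (t : ℕ) :
    pos (pal P P' L) y 0 (pos P y 0 x L) (L + t) = pos P' y 0 x t ∧
    prd (pal P P' L) y 0 (pos P y 0 x L) (L + t) = prd P' y 0 x t * (prd P y 0 x L)⁻¹ := by
  induction t with
  | zero =>
    obtain ⟨h1, h2⟩ := pal_up (P := P) (P' := P') (y := y) (x := x) L le_rfl
    simp only [Nat.sub_self, pos_zero, prd_zero, one_mul] at h1 h2
    exact ⟨by simpa using h1, by simpa using h2⟩
  | succ t ih =>
    obtain ⟨h1, h2⟩ := ih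
    have hstep : pal P P' L (0 + (L + t)) = P' t := by
      simp [pal]
    constructor
    · rw [← Nat.add_assoc, pos_succ, hstep, h1, pos_succ, zero_add]
    · rw [← Nat.add_assoc, prd_succ, hstep, h2, h1, prd_succ, zero_add, mul_assoc]

/-- if both paths end at the same position then the edge products agree or there is a coincidence
on the palindromic path -/
theorem closed_or_Co {P P' : ℕ → Stp q n} {L : ℕ} {y : World q n} {x : Fin n}
    (h : pos P y 0 x L = pos P' y 0 x L) :
    prd P y 0 x L = prd P' y 0 x L ∨ Co (pal P P' L) ∅ y (pos P y 0 x L) (2 * L) := by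
  by_cases hp : prd P y 0 x L = prd P' y 0 x L
  · exact Or.inl hp
  · right
    obtain ⟨h1, h2⟩ := pal_down (P := P) (P' := P') (y := y) (x := x) (L := L) L
    refine ⟨0, 2 * L, Nat.zero_le _, le_rfl, ?_, ?_, ?_⟩
    · rw [show 2 * L = L + L by ring, h1, pos_zero, h]
    · rw [show 2 * L = L + L by ring, h2, prd_zero]
      intro h3
      exact hp (mul_inv_eq_one.1 h3.symm).symm
    · intro t _ _ m _
      simp

open Classical in
/-- **closing lemma, first form**: outside a set of density `(2L)^4/(n-4L-1)` two paths which end at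
the same position have the same edge product -/
theorem closed_card (P P' : ℕ → Stp q n) (L : ℕ) :
    ((Finset.univ : Finset (World q n × Fin n)).filter (fun w =>
      pos P w.1 0 w.2 L = pos P' w.1 0 w.2 L ∧ prd P w.1 0 w.2 L ≠ prd P' w.1 0 w.2 L)).card *
      (n - (4 * L + 1)) ≤ (2 * L) ^ 4 * (Fintype.card (World q n) * n) := by
  classical
  have h := coinc_lemma (pal P P' L) (∅ : Finset (Fin q × Fin n)) (fun _ => 1) (2 * L)
  have hOm : (Om (∅ : Finset (Fin q × Fin n)) (fun _ => 1) : Finset (World q n)) =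
      Finset.univ := by
    ext y; simp [mem_Om]
  rw [hOm] at h
  simp only [Finset.card_empty, zero_add, Finset.card_univ] at h
  rw [show 2 * (2 * L) + 1 = 4 * L + 1 by ring] at h
  refine le_trans (Nat.mul_le_mul ?_ le_rfl) h
  refine Finset.card_le_card_of_injOn (fun w => (w.1, pos P w.1 0 w.2 L)) ?_ ?_
  · rintro ⟨y, x⟩ hw
    rw [Finset.mem_coe, Finset.mem_filter] at hw
    rw [Finset.mem_coe, Finset.mem_filter]
    refine ⟨by simp, ?_⟩
    rcases closed_or_Co hw.2.1 with h1 | h1
    · exact absurd h1 hw.2.2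
    · exact h1
  · rintro ⟨y, x⟩ - ⟨y', x'⟩ - heq
    simp only [Prod.mk.injEq] at heq
    obtain ⟨h1, h2⟩ := heq
    subst h1
    rw [pos_inj P y 0 L h2]

open Classical in
/-- **closing lemma**: the pairs (world, start) with closed palindromic path and a cut vertex at which
the constants displace the position are rare -/
theorem closed_cut (a b : ℕ → Perm (Fin n)) (g : ℕ → Option (Lt q)) (N : ℕ) :
    ((Finset.univ : Finset (World q n × Fin n)).filter (fun w =>
      pos (prog a g) w.1 0 w.2 (2 * N) = pos (prog b g) w.1 0 w.2 (2 * N) ∧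
      ¬ ∀ i j, CutL g N i j →
        pos (prog a g) w.1 0 w.2 (2 * i + 2) = pos (prog b g) w.1 0 w.2 (2 * i + 2) ∧
        pos (prog a g) w.1 0 w.2 (2 * j + 1) = pos (prog b g) w.1 0 w.2 (2 * j + 1))).card *
      (n - (8 * N + 1)) ≤ (4 * N) ^ 4 * (Fintype.card (World q n) * n) := by
  classical
  have h := closed_card (prog a g) (prog b g) (2 * N)
  rw [show 4 * (2 * N) + 1 = 8 * N + 1 by ring, show 2 * (2 * N) = 4 * N by ring] at h
  refine le_trans (Nat.mul_le_mul (Finset.card_le_card ?_) le_rfl) h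
  intro w hw
  rw [Finset.mem_filter] at hw ⊢
  refine ⟨hw.1, hw.2.1, ?_⟩
  intro hp
  apply hw.2.2
  intro i j hc
  exact det_cut hp hc

end Pool.Agent.Helper4.FS
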